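import Pool.Agent.EDG.Stmts

/-!
# Squad EDX (MP_74088a_nt): the exponent of the degree is one

Definitions and basic lemmas (all proved).  Paper proof: note 3748 of the team database (helper15).
Notation of `Pool.Agent.EDG.Defs`: outer variable `y`, inner variable `X`, `F = y ^ 2 + 2 X y`, the basis `h_e`
(monic of degree `e` in `y`), `Yp i` the critical orbit, `Cyc n g`.
-/

set_option autoImplicit false

namespace Pool.Agent.EDX

open Polynomial Finset Pool.Agent.EDG

/-! ### The field `ℚ(X)` -/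

/-- the field `ℚ(X)` -/
abbrev KK : Type := FractionRing ℤ[X]

/-- the embedding of `ℤ[X]` -/
noncomputable def iK : ℤ[X] →+* KK := algebraMap ℤ[X] KK

/-- the embedding of `ℚ[X]` -/
noncomputable def iQ : ℚ[X] →+* KK := eval₂RingHom (algebraMap ℚ KK) (iK X)

/-- `h_e` over `ℚ(X)` -/
noncomputable def hK (e : ℕ) : KK[X] := (h e).map iK

/-- `F` over `ℚ(X)` -/
noncomputable def FK : KK[X] := F.map iK

theorem iK_injective : Function.Injective iK := IsFractionRing.injective ℤ[X] KK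

@[simp] theorem iQ_C (a : ℚ) : iQ (C a) = algebraMap ℚ KK a := by simp [iQ]

@[simp] theorem iQ_X : iQ X = iK X := by simp [iQ]

theorem iQ_map (p : ℤ[X]) : iQ (p.map (Int.castRingHom ℚ)) = iK p := by
  have : iQ.comp (mapRingHom (Int.castRingHom ℚ)) = iK := by
    apply Polynomial.ringHom_ext'
    · exact RingHom.ext_int _ _
    · simp
  exact congrArg (fun φ => φ p) this

theorem iQ_injective : Function.Injective iQ := by
  rw [injective_iff_map_eq_zero]
  intro p hp
  obtain ⟨b, hb⟩ := IsLocalization.integerNormalization_map_to_map (nonZeroDivisors ℤ) p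
  have hb0 : ((b : ℤ) : ℚ) ≠ 0 := by
    have := nonZeroDivisors.coe_ne_zero b
    exact_mod_cast this
  have h1 : iQ ((IsLocalization.integerNormalization (nonZeroDivisors ℤ) p).map
      (Int.castRingHom ℚ)) = 0 := by
    have h2 : (IsLocalization.integerNormalization (nonZeroDivisors ℤ) p).map
      (Int.castRingHom ℚ) = (b : ℤ) • p := hb
    rw [h2, zsmul_eq_mul, map_mul, hp, mul_zero]
  rw [iQ_map] at h1
  have h3 : IsLocalization.integerNormalization (nonZeroDivisors ℤ) p = 0 :=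
    iK_injective (by rw [h1, map_zero])
  have h4 : (b : ℤ) • p = 0 := by
    have h2 : (IsLocalization.integerNormalization (nonZeroDivisors ℤ) p).map
      (Int.castRingHom ℚ) = (b : ℤ) • p := hb
    rw [← h2, h3, Polynomial.map_zero]
  rw [zsmul_eq_mul] at h4
  rcases mul_eq_zero.mp h4 with h5 | h5
  · exfalso
    have : ((b : ℤ) : ℚ[X]) = C ((b : ℤ) : ℚ) := by simp
    rw [this, C_eq_zero] at h5
    exact hb0 h5
  · exact h5

theorem hK_monic (e : ℕ) : (hK e).Monic := (h_monic e).map _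

theorem hK_natDegree (e : ℕ) : (hK e).natDegree = e := by
  rw [hK, (h_monic e).natDegree_map, h_natDegree]

theorem hK_degree (e : ℕ) : (hK e).degree = (e : WithBot ℕ) := by
  rw [degree_eq_natDegree (hK_monic e).ne_zero, hK_natDegree]

theorem FK_monic : FK.Monic := F_monic.map _

theorem FK_natDegree : FK.natDegree = 2 := by
  rw [FK, F_monic.natDegree_map, F_natDegree]

/-- the sequence `h_e` over `ℚ(X)` -/
noncomputable def hSeq : Polynomial.Sequence KK where
  elems' := hK
  degree_eq' := hK_degree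

/-- `h_e`, `e = 0, 1, 2, ...`, as a basis of `ℚ(X)[y]` -/
noncomputable def hB : Module.Basis ℕ KK KK[X] :=
  hSeq.basis fun i => by
    have : (hSeq i).leadingCoeff = 1 := hK_monic i
    rw [this]; exact isUnit_one

theorem hB_apply (e : ℕ) : hB e = hK e := by
  unfold hB
  rw [Polynomial.Sequence.basis_eq_self]
  rfl

theorem hK_two_mul (k : ℕ) : hK (2 * k) = (hK k).comp FK := by
  rw [hK, h_two_mul, map_comp, hK, FK]

theorem hK_two_mul_add_one (k : ℕ) : hK (2 * k + 1) = X * (hK k).comp FK := by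
  rw [hK, h_two_mul_add_one, Polynomial.map_mul, map_comp, hK, FK, map_X]

/-! ### The space `A = (ℚ[X]_(<D)) ^ n` and the functionals `mu P` -/

/-- the `i`-th polynomial of a vector -/
noncomputable def pol {R : Type} [CommRing R] {n D : ℕ} (P : Fin n × Fin D → R) (i : Fin n) : R[X] :=
  ∑ j : Fin D, C (P (i, j)) * X ^ (j : ℕ)

/-- `N_P(e) = (∑_i h_e(X, y_i) P_i) mod g` -/
noncomputable def NP (R : Type) [CommRing R] (n : ℕ) (g : ℤ[X]) (P : Fin n × Fin g.natDegree → R)
    (e : ℕ) : R[X] :=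
  (∑ i : Fin n, (ev (X : ℤ[X]) (Yp i) (h e)).map (Int.castRingHom R) * pol P i) %ₘ
    g.map (Int.castRingHom R)

theorem pol_add {R : Type} [CommRing R] {n D : ℕ} (P P' : Fin n × Fin D → R) (i : Fin n) :
    pol (P + P') i = pol P i + pol P' i := by
  simp [pol, add_mul, sum_add_distrib]

theorem pol_smul {R : Type} [CommRing R] {n D : ℕ} (a : R) (P : Fin n × Fin D → R) (i : Fin n) :
    pol (a • P) i = C a * pol P i := by
  simp [pol, mul_sum, mul_assoc]

theorem pol_map {R S : Type} [CommRing R] [CommRing S] (f : R →+* S) {n D : ℕ}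
    (P : Fin n × Fin D → R) (i : Fin n) : (pol P i).map f = pol (fun x => f (P x)) i := by
  simp [pol, Polynomial.map_sum]

theorem pol_coeff {R : Type} [CommRing R] {n D : ℕ} (P : Fin n × Fin D → R) (i : Fin n) (j : Fin D) :
    (pol P i).coeff j = P (i, j) := by
  simp only [pol, finset_sum_coeff, coeff_C_mul, coeff_X_pow]
  rw [Finset.sum_eq_single j]
  · simp
  · intro b _ hb
    have : ¬ ((j : ℕ) = (b : ℕ)) := fun hh => hb (Fin.ext hh.symm)
    simp [this]
  · intro hj; exact absurd (mem_univ j) hj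

theorem pol_degree_lt {R : Type} [CommRing R] {n D : ℕ} (P : Fin n × Fin D → R) (i : Fin n) :
    (pol P i).degree < (D : WithBot ℕ) :=
  degree_sum_fin_lt fun j => P (i, j)

theorem NP_add (R : Type) [CommRing R] (n : ℕ) (g : ℤ[X]) (P P' : Fin n × Fin g.natDegree → R)
    (e : ℕ) : NP R n g (P + P') e = NP R n g P e + NP R n g P' e := by
  unfold NP
  rw [← add_modByMonic, ← sum_add_distrib]
  congr 1
  apply sum_congr rfl
  intro i _
  rw [pol_add]; ring

theorem NP_smul (R : Type) [CommRing R] (n : ℕ) (g : ℤ[X]) (a : R) (P : Fin n × Fin g.natDegree → R)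
    (e : ℕ) : NP R n g (a • P) e = C a * NP R n g P e := by
  unfold NP
  rw [← smul_eq_C_mul, ← smul_modByMonic, smul_sum]
  congr 1
  apply sum_congr rfl
  intro i _
  rw [pol_smul, smul_eq_C_mul]; ring

theorem NP_map {R S : Type} [CommRing R] [CommRing S] (f : R →+* S) (n : ℕ) (g : ℤ[X])
    (hg : g.Monic) (P : Fin n × Fin g.natDegree → R) (e : ℕ) :
    (NP R n g P e).map f = NP S n g (fun x => f (P x)) e := by
  unfold NP
  have hc : f.comp (Int.castRingHom R) = Int.castRingHom S := RingHom.ext_int _ _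
  rw [map_modByMonic _ (hg.map _), Polynomial.map_sum, Polynomial.map_map, hc]
  congr 1
  apply sum_congr rfl
  intro i _
  rw [Polynomial.map_mul, Polynomial.map_map, hc, pol_map]

theorem NP_degree_lt (R : Type) [CommRing R] [Nontrivial R] (n : ℕ) (g : ℤ[X]) (hg : g.Monic)
    (P : Fin n × Fin g.natDegree → R) (e : ℕ) :
    (NP R n g P e).degree < (g.natDegree : WithBot ℕ) := by
  have h1 : (g.map (Int.castRingHom R)).Monic := hg.map _
  have h2 := degree_modByMonic_lt (∑ i : Fin n, (ev (X : ℤ[X]) (Yp i) (h e)).map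
    (Int.castRingHom R) * pol P i) h1
  rwa [degree_eq_natDegree h1.ne_zero, hg.natDegree_map] at h2

/-- the functional `mu P` on `ℚ(X)[y]`, with `mu P h_e = N_P(e)`; linear in `P` -/
noncomputable def mu (n : ℕ) (g : ℤ[X]) :
    (Fin n × Fin g.natDegree → ℚ) →ₗ[ℚ] (KK[X] →ₗ[KK] KK) where
  toFun P := hB.constr KK fun e => iQ (NP ℚ n g P e)
  map_add' P P' := by
    apply hB.ext
    intro e
    simp [Module.Basis.constr_basis, NP_add]
  map_smul' a P := by
    apply hB.ext
    intro e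
    rw [Module.Basis.constr_basis, NP_smul, map_mul, iQ_C, RingHom.id_apply, LinearMap.smul_apply,
      Module.Basis.constr_basis, Algebra.smul_def]

theorem mu_hK (n : ℕ) (g : ℤ[X]) (P : Fin n × Fin g.natDegree → ℚ) (e : ℕ) :
    mu n g P (hK e) = iQ (NP ℚ n g P e) := by
  have h1 : mu n g P (hK e) = hB.constr KK (fun e => iQ (NP ℚ n g P e)) (hB e) := by
    rw [hB_apply]; rfl
  rw [h1, Module.Basis.constr_basis]

/-- two functionals which agree on the `h_e` with `e < r` agree on the polynomials of degree `< r` -/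
theorem ext_hK (μ ν : KK[X] →ₗ[KK] KK) (r : ℕ) (hh : ∀ e < r, μ (hK e) = ν (hK e)) (f : KK[X])
    (hf : f.degree < (r : WithBot ℕ)) : μ f = ν f := by
  have h1 : f ∈ Submodule.span KK (hSeq '' Set.Iio r) := by
    rw [Polynomial.Sequence.span_degreeLT hSeq (m := r) (fun i _ => by
      have : (hSeq i).leadingCoeff = 1 := hK_monic i
      rw [this]; exact isUnit_one)]
    exact mem_degreeLT.mpr hf
  refine LinearMap.eqOn_span (f := μ) (g := ν) ?_ h1
  rintro _ ⟨e, he, rfl⟩
  exact hh e he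

/-- `LQ(q, k)`: all `N_P(e)`, `e < 2 ^ k`, have degree `< D - q` -/
noncomputable def LQ (n : ℕ) (g : ℤ[X]) (q k : ℕ) : Submodule ℚ (Fin n × Fin g.natDegree → ℚ) where
  carrier := {P | ∀ e < 2 ^ k, ∀ j, g.natDegree ≤ j + q → (NP ℚ n g P e).coeff j = 0}
  add_mem' {P P'} hP hP' := by
    intro e he j hj
    rw [NP_add, coeff_add, hP e he j hj, hP' e he j hj, add_zero]
  zero_mem' := by
    intro e _ j _
    have := NP_smul ℚ n g 0 0 e
    rw [zero_smul] at this
    rw [this]; simp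
  smul_mem' a P hP := by
    intro e he j hj
    rw [NP_smul, coeff_C_mul, hP e he j hj, mul_zero]

theorem mem_LQ {n : ℕ} {g : ℤ[X]} {q k : ℕ} {P : Fin n × Fin g.natDegree → ℚ} :
    P ∈ LQ n g q k ↔ ∀ e < 2 ^ k, ∀ j, g.natDegree ≤ j + q → (NP ℚ n g P e).coeff j = 0 := Iff.rfl

/-- the action of `w(X, y)` on the vectors: `(w P)_i = w(X, y_i) P_i mod g` -/
noncomputable def act (n : ℕ) (g : ℤ[X]) (w : ℤ[X][X]) (P : Fin n × Fin g.natDegree → ℚ) :
    Fin n × Fin g.natDegree → ℚ := fun x =>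
  (((ev (X : ℤ[X]) (Yp x.1) w).map (Int.castRingHom ℚ) * pol P x.1) %ₘ
    g.map (Int.castRingHom ℚ)).coeff x.2

/-! ### The abstract situation of the chain argument -/

/-- A space `A` of functionals on `K[y]` stable under `f ↦ f ∘ F` and `f ↦ y (f ∘ F)` -/
structure Dat (k₀ K A : Type) [Field k₀] [Field K] [Algebra k₀ K] [AddCommGroup A] [Module k₀ A] where
  mu : A →ₗ[k₀] (K[X] →ₗ[K] K)
  Fm : K[X]
  al : A →ₗ[k₀] A
  be : A →ₗ[k₀] A
  monic : Fm.Monic
  deg : Fm.natDegree = 2
  hal : ∀ P f, mu (al P) f = mu P (f.comp Fm)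
  hbe : ∀ P f, mu (be P) f = mu P (X * f.comp Fm)

section abstract

variable {k₀ K A : Type} [Field k₀] [Field K] [Algebra k₀ K] [AddCommGroup A] [Module k₀ A]

/-- `𝓛_Φ[r]`: the `P` with `mu P f = 0` for all multiples `f` of `Φ` of degree `< r` -/
def LL (m : A →ₗ[k₀] (K[X] →ₗ[K] K)) (Φ : K[X]) (r : ℕ) : Submodule k₀ A where
  carrier := {P | ∀ f : K[X], Φ ∣ f → f.degree < (r : WithBot ℕ) → m P f = 0}
  add_mem' {P P'} hP hP' := by
    intro f h1 h2
    rw [map_add, LinearMap.add_apply, hP f h1 h2, hP' f h1 h2, add_zero]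
  zero_mem' := by
    intro f _ _
    rw [map_zero, LinearMap.zero_apply]
  smul_mem' a P hP := by
    intro f h1 h2
    rw [map_smul, LinearMap.smul_apply, hP f h1 h2, smul_zero]

theorem mem_LL {m : A →ₗ[k₀] (K[X] →ₗ[K] K)} {Φ : K[X]} {r : ℕ} {P : A} :
    P ∈ LL m Φ r ↔ ∀ f : K[X], Φ ∣ f → f.degree < (r : WithBot ℕ) → m P f = 0 := Iff.rfl

theorem LL_mono_r (m : A →ₗ[k₀] (K[X] →ₗ[K] K)) (Φ : K[X]) {r r' : ℕ} (hr : r ≤ r') :
    LL m Φ r' ≤ LL m Φ r := fun _ hP f h1 h2 =>
  hP f h1 (h2.trans_le (by exact_mod_cast hr))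

theorem LL_mono_dvd (m : A →ₗ[k₀] (K[X] →ₗ[K] K)) {Φ Ψ : K[X]} (hd : Ψ ∣ Φ) (r : ℕ) :
    LL m Ψ r ≤ LL m Φ r := fun _ hP f h1 h2 => hP f (hd.trans h1) h2

/-- `Φ` maximises `dim 𝓛_Φ[r] - c deg Φ` -/
def Mx (m : A →ₗ[k₀] (K[X] →ₗ[K] K)) (c : ℝ) (r : ℕ) (Φ : K[X]) : Prop :=
  Φ ≠ 0 ∧ ∀ Ξ : K[X], Ξ ≠ 0 →
    (Module.finrank k₀ (LL m Ξ r) : ℝ) - c * Ξ.natDegree ≤
      (Module.finrank k₀ (LL m Φ r) : ℝ) - c * Φ.natDegree

end abstract

/-! ### The abstract situation of Petridis' lemma -/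

section petridis

variable {k₀ V R : Type} [Field k₀] [AddCommGroup V] [Module k₀ V] [CommRing R]

/-- the span of `S U` -/
def pr (ρ : R →+* Module.End k₀ V) (S : Finset R) (U : Submodule k₀ V) : Submodule k₀ V :=
  ⨆ w ∈ S, U.map (ρ w)

/-- the dimension of `U` modulo `Z` -/
noncomputable def dr (Z U : Submodule k₀ V) : ℕ := Module.finrank k₀ (U.map Z.mkQ)

end petridis

/-- multiplication of functionals by polynomials: `(w μ)(f) = μ(w f)` -/
noncomputable def mulF : KK[X] →+* Module.End ℚ (KK[X] →ₗ[KK] KK) where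
  toFun w :=
    { toFun := fun μ => μ.comp (LinearMap.mulLeft KK w)
      map_add' := fun μ ν => by ext; simp
      map_smul' := fun a μ => by ext; simp }
  map_one' := by
    apply LinearMap.ext; intro μ; apply LinearMap.ext; intro f
    simp
  map_mul' v w := by
    apply LinearMap.ext; intro μ; apply LinearMap.ext; intro f
    simp [mul_comm v w, mul_assoc]
  map_zero' := by
    apply LinearMap.ext; intro μ; apply LinearMap.ext; intro f
    simp
  map_add' v w := by
    apply LinearMap.ext; intro μ; apply LinearMap.ext; intro f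
    simp [add_mul]

theorem mulF_apply (w : KK[X]) (μ : KK[X] →ₗ[KK] KK) (f : KK[X]) : mulF w μ f = μ (w * f) := rfl

/-- the functionals which vanish on the polynomials of degree `< r` -/
def ZZ (r : ℕ) : Submodule ℚ (KK[X] →ₗ[KK] KK) where
  carrier := {μ | ∀ f : KK[X], f.degree < (r : WithBot ℕ) → μ f = 0}
  add_mem' {μ ν} h1 h2 := by
    intro f hf
    rw [LinearMap.add_apply, h1 f hf, h2 f hf, add_zero]
  zero_mem' := by
    intro f _
    rw [LinearMap.zero_apply]
  smul_mem' a μ h1 := by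
    intro f hf
    rw [LinearMap.smul_apply, h1 f hf, smul_zero]

theorem mem_ZZ {r : ℕ} {μ : KK[X] →ₗ[KK] KK} :
    μ ∈ ZZ r ↔ ∀ f : KK[X], f.degree < (r : WithBot ℕ) → μ f = 0 := Iff.rfl

/-! ### Reduction modulo `2` at `y = θ` -/

/-- an algebraic closure of the field with two elements -/
abbrev FF : Type := AlgebraicClosure (ZMod 2)

/-- reduction modulo `2` and `y = θ`: `ψ ↦ ψ(X, θ)` in `FF[X]` -/
noncomputable def vt (θ : FF) : ℤ[X][X] →+* FF[X] :=
  eval₂RingHom (mapRingHom (Int.castRingHom FF)) (C θ)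

theorem vt_C (θ : FF) (p : ℤ[X]) : vt θ (C p) = p.map (Int.castRingHom FF) := by simp [vt]

theorem vt_X (θ : FF) : vt θ X = C θ := by simp [vt]

open Classical in
/-- the roots of `g` in `FF` -/
noncomputable def rts (g : ℤ[X]) : Finset FF := (g.map (Int.castRingHom FF)).roots.toFinset

open Classical in
/-- `Th(Φ)`: the roots `θ` of `g` modulo `2` with `Φ(X, θ) = 0` modulo `2` -/
noncomputable def Th (g : ℤ[X]) (Φ : ℤ[X][X]) : Finset FF := (rts g).filter fun θ => vt θ Φ = 0

/-! ### Values and coordinates -/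

/-- the coordinates of `(2X)^s h_e` at the `n` points modulo `g` -/
noncomputable def vec (n : ℕ) (g : ℤ[X]) (s e : ℕ) : Fin n × Fin g.natDegree → ℤ := fun x =>
  (((2 * X) ^ s * ev (X : ℤ[X]) (Yp x.1) (h e)) %ₘ g).coeff x.2

/-- the parameters `b` (fixed points) with bounded critical orbit; `b + it b y j` is the orbit of the
`x`-coordinate -/
def PP : Set ℂ := {b | ‖b‖ ≤ 2 ∧ ∀ j, ‖b + it b (-b) j‖ ≤ 2}

/-- the pairs `(b, y)`, `b ∈ PP`, with bounded orbit of `y` -/
def KP : Set (ℂ × ℂ) := {p | p.1 ∈ PP ∧ ∀ j, ‖p.1 + it p.1 p.2 j‖ ≤ 2}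

/-- the vector `(h_e(b, y))`, `e < m` -/
noncomputable def hv (m : ℕ) (b y : ℂ) : Fin m → ℂ := fun e => ev b y (h (e : ℕ))

end Pool.Agent.EDX
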