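import Pool.Agent.EDX.Defs

/-!
# Squad EDX, blocks P (Petridis), K (chain of maximisers), S (the first multiplier)

One statement per row; every docstring contains a complete proof.  Notation: `D = g.natDegree`,
`A = (Fin n × Fin D → ℚ)`.
-/

set_option autoImplicit false

namespace Pool.Agent.EDX

open Polynomial Finset Pool.Agent.EDG Module

/-! ### Block P -/

/-- **PT1** (linear algebra, medium).  One step of Petridis' argument.  `φ(U₁) = dr (Z (l+b)) (S U₁) - K dim U₁` is minimal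
at `U` among the subspaces of `U`.
Proof.  Induction on `C`, adding one element `c` at a time (`C = C' ∪ {c}`; for `C = ∅` both sides are `0`).  All spaces `pr ρ S U`
are finite dimensional.  Let `U₁ = {u ∈ U : ρ c u ∈ C' U + Z (l+a)}`.  Then
`dr (Z (l+a)) (C U) - dr (Z (l+a)) (C' U) = dim U - dim U₁` (the map `u ↦ ρ c u` from `U` onto
`(C U + Z (l+a)) / (C' U + Z (l+a))` has kernel `U₁`).  `S C U = S C' U + ρ c (S U)` (`R` is commutative), and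
`ρ c (S U₁) = S (ρ c U₁) ⊆ S C' U + S Z (l+a) ⊆ S C' U + Z l`, `ρ c (Z (l+b)) ⊆ Z l`.  So
`(S C U + Z l) / (S C' U + Z l)` is the image under `ρ c` of `(S U + Z (l+b)) / (S U₁ + Z (l+b))`, whose dimension is
`dr (Z (l+b)) (S U) - dr (Z (l+b)) (S U₁) ≤ K (dim U - dim U₁)` by minimality.  Add to the induction hypothesis. -/
def Pt1Stmt : Prop :=
  ∀ (k₀ V R : Type) [Field k₀] [AddCommGroup V] [Module k₀ V] [CommRing R]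
    (ρ : R →+* Module.End k₀ V) (Z : ℕ → Submodule k₀ V) (S C : Finset R) (a b l K : ℕ)
    (U : Submodule k₀ V), FiniteDimensional k₀ U →
    (∀ w ∈ S, ∀ r, (Z (r + a)).map (ρ w) ≤ Z r) →
    (∀ c ∈ C, ∀ r, (Z (r + b)).map (ρ c) ≤ Z r) →
    (∀ U₁ : Submodule k₀ V, U₁ ≤ U →
      dr (Z (l + b)) (pr ρ S U) + K * finrank k₀ U₁ ≤
        dr (Z (l + b)) (pr ρ S U₁) + K * finrank k₀ U) →
    dr (Z l) (pr ρ S (pr ρ C U)) ≤ K * dr (Z (l + a)) (pr ρ C U)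

/-- **PET** (uses PT1).  Truncated lemma of Petridis.
Proof.  Choose `U ≤ U₀` with `φ(U) = dr (Z (l+Qa)) (S U) - K dim U` (an integer `≥ - K dim U₀`) minimal.
`φ(U) ≤ φ(U₀) ≤ N - K dim U₀ ≤ -N`, so `K dim U ≥ N`; `φ(U) ≤ φ(0) = 0`, so `dr (Z (l+Qa)) (S U) ≤ K dim U`.  A subspace of `U` is a
subspace of `U₀`, so `U` satisfies the minimality of PT1 at level `l + Q a`.  For `1 ≤ j ≤ Q` let `C_j` be the set of
products of `j` elements of `S` (`Finset` power, or the image of a multiset); `pr ρ C_j U = (pr ρ S)^[j] U`,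
`C_j` lowers the level by `b = j a`.  PT1 with `l + (Q-j) a` in the place of `l`:
`dr (Z (l+(Q-j)a)) (S^(j+1) U) ≤ K dr (Z (l+(Q-j+1)a)) (S^j U)`.  Chain of these for `j = 1, ..., Q`. -/
def PetStmt : Prop :=
  ∀ (k₀ V R : Type) [Field k₀] [AddCommGroup V] [Module k₀ V] [CommRing R]
    (ρ : R →+* Module.End k₀ V) (Z : ℕ → Submodule k₀ V) (S : Finset R) (a l Q K N : ℕ)
    (U₀ : Submodule k₀ V), FiniteDimensional k₀ U₀ →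
    (∀ w ∈ S, ∀ r, (Z (r + a)).map (ρ w) ≤ Z r) →
    dr (Z (l + Q * a)) (pr ρ S U₀) ≤ N → 2 * N ≤ K * finrank k₀ U₀ →
    ∃ U : Submodule k₀ V, U ≤ U₀ ∧ N ≤ K * finrank k₀ U ∧
      dr (Z l) ((pr ρ S)^[Q + 1] U) ≤ K ^ (Q + 1) * finrank k₀ U

/-! ### Block K: the chain of maximisers (abstract) -/

/-- **GCD** (easy-medium).
Proof.  `Φ = G Φ₁`, `Ξ = G Ξ₁`, `1 = A' Φ₁ + B' Ξ₁`.  Let `P` be in both, `f = G f₁`, `deg f < R`.  Divide: `f₁ = Φ₁ f₂ + f₀`,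
`deg f₀ < deg Φ₁`.  `f = Φ f₂ + G f₀`, `deg (Φ f₂) ≤ deg f < R`, so `m P (Φ f₂) = 0`.  Let `B'' = (f₀ B') mod Φ₁`;
`f₀ - B'' Ξ₁` is divisible by `Φ₁`, `= A'' Φ₁`.  `G f₀ = A'' Φ + B'' Ξ` with `deg (B'' Ξ) < deg Φ₁ + deg Ξ ≤ R'` and
`deg (A'' Φ) = deg (G f₀ - B'' Ξ) < deg Φ + deg Ξ ≤ R' ≤ R`.  So `m P (G f₀) = 0`. -/
def GcdStmt : Prop :=
  ∀ (k₀ K A : Type) [Field k₀] [Field K] [Algebra k₀ K] [AddCommGroup A] [Module k₀ A]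
    (m : A →ₗ[k₀] (K[X] →ₗ[K] K)) (Φ Ξ G A' B' : K[X]) (R R' : ℕ), Φ ≠ 0 → Ξ ≠ 0 → G ∣ Φ → G ∣ Ξ →
    G = A' * Φ + B' * Ξ → R' ≤ R → Φ.natDegree + Ξ.natDegree ≤ R' →
    LL m Φ R ⊓ LL m Ξ R' ≤ LL m G R

/-- **MAX** (easy).
Proof.  The value at `Φ = 1` is `≥ 0`.  The values `dim LL - c deg` which are `≥ 0` have `dim ≤ dim A`, `deg ≤ dim A / c`: finitely
many values, take the largest.  At the maximum `c deg Φ ≤ dim LL ≤ dim A`. -/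
def MaxStmt : Prop :=
  ∀ (k₀ K A : Type) [Field k₀] [Field K] [Algebra k₀ K] [AddCommGroup A] [Module k₀ A]
    [FiniteDimensional k₀ A] (m : A →ₗ[k₀] (K[X] →ₗ[K] K)) (c : ℝ) (r : ℕ), 0 < c →
    ∃ Φ : K[X], Mx m c r Φ ∧ c * Φ.natDegree ≤ finrank k₀ A

/-- **DWN** (medium, uses GCD).
Proof.  `G` a gcd of `Φ`, `Ψ` (`EuclideanDomain.gcd`, Bezout), `Φ = G Φ₁`, `L = Φ₁ Ψ`.  `LL Φ (2r) ⊓ LL Ψ r ≤ LL G (2r)` (GCD with `R = 2r`,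
`R' = r`), `LL Φ (2r) ⊔ LL Ψ r ≤ LL L r` (`LL_mono_r`, `LL_mono_dvd`), so
`dim LL Φ (2r) + dim LL Ψ r ≤ dim LL L r + dim LL G (2r)`.  Maximality of `Ψ` against `L`:
`dim LL L r - dim LL Ψ r ≤ c deg Φ₁`.  Maximality of `Φ` against `G`: `c' deg Φ₁ ≤ dim LL Φ (2r) - dim LL G (2r) ≤ c deg Φ₁`.  So
`deg Φ₁ = 0`, `Φ` is associated to `G`. -/
def DwnStmt : Prop :=
  ∀ (k₀ K A : Type) [Field k₀] [Field K] [Algebra k₀ K] [AddCommGroup A] [Module k₀ A]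
    [FiniteDimensional k₀ A] (m : A →ₗ[k₀] (K[X] →ₗ[K] K)) (Φ Ψ : K[X]) (c c' : ℝ) (r : ℕ),
    Mx m c r Ψ → Mx m c' (2 * r) Φ → c < c' → 2 * (Φ.natDegree + Ψ.natDegree) ≤ r → Φ ∣ Ψ

/-- **HNF** (medium).  Hermite normal form of the ideal `(Φ)` over `K[F]`.
Proof.  `F` has degree `2`, so `(f₀, f₁) ↦ f₀ ∘ F + y (f₁ ∘ F)` is injective (degrees `2 deg f₀` and `2 deg f₁ + 1` differ).
`m` = a polynomial `≠ 0` of minimal degree with `Φ ∣ m ∘ F`; it exists (the map `K[y]_(≤ deg Φ) → K[y]/(Φ)`, `f ↦ f ∘ F`, is not injective).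
`s` = a polynomial `≠ 0` of minimal degree such that `Φ ∣ u ∘ F + y (s ∘ F)` for some `u` (`s = m`, `u = 0` is possible, so it exists).
Replace `u` by `u mod m` (`Φ ∣ m ∘ F`): `deg u < deg m`.  Divide `m = s v + ρ`, `deg ρ < deg s`: `Φ` divides
`y (m ∘ F) - (v ∘ F)(u ∘ F + y (s ∘ F)) = (-(v u)) ∘ F + y (ρ ∘ F)`, so `ρ = 0` by minimality.  The map
`(f₀, f₁) ↦ f₀ ∘ F + y (f₁ ∘ F) mod Φ` on `deg f₀ < deg m`, `deg f₁ < deg s` is injective (minimality of `s`, then of `m`), so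
`deg m + deg s ≤ dim K[y]/(Φ) = deg Φ`. -/
def HnfStmt : Prop :=
  ∀ (K : Type) [Field K] (Fm Φ : K[X]), Fm.Monic → Fm.natDegree = 2 → Φ ≠ 0 →
    ∃ m s u v : K[X], m ≠ 0 ∧ s ≠ 0 ∧ m = s * v ∧ u.degree < m.degree ∧ Φ ∣ m.comp Fm ∧
      Φ ∣ u.comp Fm + X * s.comp Fm ∧ m.natDegree + s.natDegree ≤ Φ.natDegree

/-- **FDW** (STRONG, uses GCD HNF).
Proof.  `F = T.Fm`, `G` a gcd of `Φ` and `Ψ ∘ F`, `Φ = G Φ'`; HNF for `Φ'`: `m s u v`.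
(i) `P ∈ LL Φ (2r)` implies `al P`, `be P ∈ LL (m Ψ) r`: for a multiple `f` of `m Ψ` with `deg f < r`, `mu (al P) f = mu P (f ∘ F)`, `mu (be P) f =
mu P (y (f ∘ F))`, both arguments are multiples of `(m ∘ F)(Ψ ∘ F)`, so of `Φ' G = Φ`, of degrees `≤ 2 (r-1) + 1 < 2r`.
(ii) If moreover `al P ∈ LL Ψ r` then `be P ∈ LL (s Ψ) r`: let `f = s Ψ f₁`, `deg f < r`, `f₁ = v f₂ + f₀`, `deg f₀ < deg v` (`f₀ = 0` if `v` is
constant).  `f = m Ψ f₂ + s Ψ f₀`, `deg (m Ψ f₂) ≤ deg f < r`, use (i).  `mu (be P) (s Ψ f₀) = mu P (y (s ∘ F)(Ψ ∘ F)(f₀ ∘ F)) =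
mu P ((u ∘ F + y (s ∘ F))(Ψ ∘ F)(f₀ ∘ F)) - mu (al P) (u Ψ f₀)`; the first argument is a multiple of `Φ' G = Φ` of degree
`≤ 2 deg m + 1 + 2 deg Ψ + 2 (deg m - 1) < 2r` (`deg m ≤ deg Φ`), the second is a multiple of `Ψ` of degree
`≤ (deg m - 1) + deg Ψ + (deg m - 1) < r`.
(iii) `al P`, `be P ∈ LL Ψ r` implies `P ∈ LL (Ψ ∘ F) (2r)`: a multiple of `Ψ ∘ F` is `(Ψ f₀) ∘ F + y ((Ψ f₁) ∘ F)`; if its degree is `< 2r`
then `deg (Ψ f₀)`, `deg (Ψ f₁) < r` (the two degrees have different parity).  (Every `f'` is `f₀ ∘ F + y (f₁ ∘ F)`: divide by `F` repeatedly.)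
(iv) `dim LL Φ (2r) ≤ dim {P : al P ∈ LL Ψ r} + (dim LL (m Ψ) r - dim LL Ψ r)`, then
`dim {al P ∈ LL Ψ r} ≤ dim {al P, be P ∈ LL Ψ r} + (dim LL (s Ψ) r - dim LL Ψ r)`, the last space is in
`LL Φ (2r) ⊓ LL (Ψ ∘ F) (2r) ≤ LL G (2r)` (GCD, `R = R' = 2r`); maximality of `Ψ`: the two brackets are `≤ c deg m`, `≤ c deg s`.  So
`dim LL Φ (2r) ≤ dim LL G (2r) + c deg Φ'`; maximality of `Φ` against `G`: `c' deg Φ' ≤ c deg Φ'`, so `deg Φ' = 0`. -/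
def FdwStmt : Prop :=
  ∀ (k₀ K A : Type) [Field k₀] [Field K] [Algebra k₀ K] [AddCommGroup A] [Module k₀ A]
    [FiniteDimensional k₀ A] (T : Dat k₀ K A) (Φ Ψ : K[X]) (c c' : ℝ) (r : ℕ), 0 ≤ c →
    Mx T.mu c r Ψ → Mx T.mu c' (2 * r) Φ → c < c' → 2 * (Φ.natDegree + Ψ.natDegree) ≤ r →
    Φ ∣ Ψ.comp T.Fm

/-- **CHN** (easy-medium, uses MAX DWN FDW).
Proof.  `c_i = c (1 + i / (J+1))`, `Φ i` a maximiser for `c_i` and `r_i = 2 ^ i r₀` (MAX).  `c deg Φ_i ≤ c_i deg Φ_i ≤ dim A`, so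
`2 (deg Φ_(i+1) + deg Φ_i) ≤ 4 dim A / c ≤ r₀ ≤ r_i`: DWN and FDW (`2 r_i = r_(i+1)`).  Last part: maximality of `Φ J` against `Ξ`, `c_J ≤ 2c`. -/
def ChnStmt : Prop :=
  ∀ (k₀ K A : Type) [Field k₀] [Field K] [Algebra k₀ K] [AddCommGroup A] [Module k₀ A]
    [FiniteDimensional k₀ A] (T : Dat k₀ K A) (c : ℝ) (J r₀ : ℕ), 0 < c →
    4 * (finrank k₀ A : ℝ) ≤ c * r₀ →
    ∃ Φ : ℕ → K[X], (∀ i ≤ J, Φ i ≠ 0 ∧ c * (Φ i).natDegree ≤ finrank k₀ A) ∧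
      (∀ i < J, Φ (i + 1) ∣ Φ i ∧ Φ (i + 1) ∣ (Φ i).comp T.Fm) ∧
      ∀ Ξ : K[X], Ξ ≠ 0 → (finrank k₀ (LL T.mu Ξ (2 ^ J * r₀)) : ℝ) ≤
        finrank k₀ (LL T.mu (Φ J) (2 ^ J * r₀)) + 2 * c * Ξ.natDegree

/-! ### Block S -/

/-- **DAT** (medium).  The shift maps.
Proof.  `al P` has the polynomials `(al P)_i = P_(i-1)` (indices modulo `n`), `be P` has `(be P)_i = (y_(i-1) P_(i-1)) mod g`.
`N_(al P)(e) = N_P(2e)` and `N_(be P)(e) = N_P(2e+1)`: `h_(2e)(X, y_i) = h_e(X, y_(i+1))`, `h_(2e+1)(X, y_i) = y_i h_e(X, y_(i+1))`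
(`ev_comp_F_Yp`), and `y_n ≡ y_0 mod g` (`Cyc.per`), so `h_e(X, y_n) ≡ h_e(X, y_0)`.  `mu (al P) (hK e) = mu P (hK (2e)) = mu P ((hK e) ∘ F)`;
both sides are `KK`-linear in `f`, use `hB.ext`. -/
def DatStmt : Prop :=
  ∀ (n : ℕ) (g : ℤ[X]), Cyc n g → ∃ T : Dat ℚ KK (Fin n × Fin g.natDegree → ℚ),
    T.mu = mu n g ∧ T.Fm = FK

/-- **INJ** (medium).
Proof.  `NP ℚ n g P e = 0` for `e < n` (`iQ_injective`), so `g ∣ ∑_i h_e(X, y_i) P_i` in `ℚ[X]` for `e < n`; `h_0, ..., h_(n-1)` are monic of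
degrees `0, ..., n-1` in `y`, so `g ∣ ∑_i y_i ^ e P_i` for `e < n`.  In the field `ℚ[X]/(g)` (`g` is irreducible over `ℚ`, Gauss) the `y_i`, `i < n`, are
distinct (`y_i = y_j`, `i < j < n`, would give `y_(i+n-j) = y_n = y_0`, against `Cyc.ex`), so by Vandermonde `g ∣ P_i`, `deg P_i < D`, `P_i = 0`. -/
def InjStmt : Prop :=
  ∀ (n : ℕ) (g : ℤ[X]), Cyc n g → ∀ P : Fin n × Fin g.natDegree → ℚ,
    (∀ e < n, mu n g P (hK e) = 0) → P = 0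

/-- **HPR** (easy).  Proof.  Induction on `l` with the recursion of `h` (`b = 2 b'` or `2 b' + 1`, `h (2k) = h k ∘ F`, `h (2k+1) = y (h k ∘ F)`). -/
def HprStmt : Prop :=
  ∀ l a b : ℕ, b < 2 ^ l → h (2 ^ l * a + b) = h (2 ^ l * a) * h b

/-- **HPC** (medium).  Multiplication by a product of at most `q` of the `Fit j` costs `q` in the degree in `X`.
Proof.  `Fit j = h (2 ^ j)`, `Fit j ^ 2 = Fit (j+1) - 2 X Fit j`.  (a) `Fit j * h e ∈ 𝓕(e + 2 ^ j + 1, 2)` by strong induction on `e` (all `j`): if bit `j` of `e` is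
`0` it is `h (e + 2 ^ j)`; if it is `1`, `e = e' + 2 ^ j`, `h e = Fit j * h e'` and `Fit j * h e = Fit (j+1) * h e' - 2 X h e`.  (b) by `InF.mulC` and sums
`Fit j * 𝓕(N, d) ⊆ 𝓕(N + 2 ^ j, d + 1)`.  (c) `h (2 ^ l e₀)` is the product of the `Fit (l+j)` over the at most `q` binary digits `j` of `e₀`: induction on `q`. -/
def HpcStmt : Prop :=
  ∀ l q e₀ e : ℕ, e₀ < 2 ^ q → InF (2 ^ l * e₀ + e + 1) (q + 1) (h (2 ^ l * e₀) * h e)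

/-- **WMU** (medium).
Proof.  `ext_hK`: it is enough to take `f = hK e`, `e < r`.  `w h_e = ∑_(e' < 2^k) a_(e') h_(e')`, `deg a_(e') ≤ q`.  `mu P (w h_e) = iQ (∑ a_(e') N_P(e'))`; by
`P ∈ LQ` the polynomial `∑ a_(e') N_P(e')` has degree `< D`, and it is congruent modulo `g` to `∑_i w(X,y_i) h_e(X,y_i) P_i`, hence to `∑_i h_e(X,y_i) (w P)_i`,
whose remainder modulo `g` is `N_(wP)(e)`.  Two congruent polynomials of degree `< D` are equal. -/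
def WmuStmt : Prop :=
  ∀ (n : ℕ) (g : ℤ[X]), Cyc n g → ∀ (q k r : ℕ) (w : ℤ[X][X]) (P : Fin n × Fin g.natDegree → ℚ),
    P ∈ LQ n g q k → (∀ e < r, InF (2 ^ k) (q + 1) (w * h e)) →
    ∀ f : KK[X], f.degree < (r : WithBot ℕ) →
      mu n g P (w.map iK * f) = mu n g (act n g w P) f

/-- **KRK** (medium-strong).
Proof.  Let `W` be the `KK`-span of the restrictions of the functionals `mulF (hK e) u` (`u ∈ U`, `e < L`) to the polynomials of degree `< r`, `t₀ = dim_KK W ≤ r`.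
Choose `t₀` of these functionals `v_1, ..., v_(t₀)` whose restrictions are `KK`-independent; `1, X, ..., X^(q-1)` are independent over `ℚ` in `KK`, so the
`q t₀` functionals `X ^ t v_j` (all in `T`) are independent over `ℚ` modulo `ZZ r`: `q t₀ ≤ dr (ZZ r) T ≤ M < q r`, `t₀ < r`.  The polynomials of degree `≤ t₀` (a space of
dimension `t₀ + 1`) contain some `Φ ≠ 0` killed by the `t₀` functionals `v_j`, hence by `W`: `u (hK e * Φ) = 0` for all `e < L`, and the `hK e`, `e < L`, span the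
polynomials of degree `< L`. -/
def KrkStmt : Prop :=
  ∀ (q L r M : ℕ) (U T : Submodule ℚ (KK[X] →ₗ[KK] KK)), 0 < q → FiniteDimensional ℚ T →
    (∀ u ∈ U, ∀ t < q, ∀ e < L, mulF (C (iK X ^ t) * hK e) u ∈ T) → dr (ZZ r) T ≤ M → M < q * r →
    ∃ Φ : KK[X], Φ ≠ 0 ∧ q * Φ.natDegree ≤ M ∧
      ∀ u ∈ U, ∀ f : KK[X], f.degree < (L : WithBot ℕ) → u (Φ * f) = 0

/-- **STR** (STRONG assembly, uses PET KRK HPR HPC WMU INJ).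
Proof.  `N = n D`.  `S` = the polynomials (over `KK`, `Polynomial.map iK`) `C (X ^ t)` (`t < q`) and `h (2 ^ (q j) e₀)` (`e₀ < 2 ^ q`, `j < b`, `2 ^ (q j) e₀ < 2 ^ k'`).
`a = l = 2 ^ k'`, `Z = ZZ`, `ρ = mulF`, `U₀ = (LQ n g q k).map (mu n g)` (`mu n g` is injective by INJ, so `dim U₀ = dim LQ`), `K = 2 d`, `Q = b`.  An element of `S` has degree `< 2 ^ k'` in `y`:
it maps `ZZ (r + a)` into `ZZ r`.  For `w ∈ S`, `e < (b+1) 2 ^ k'`: `w h_e ∈ 𝓕(2 ^ k, q+1)` (HPC, `InF.mono`, `(b+2) 2 ^ k' ≤ 2 ^ k`; for `w = X ^ t` direct), so by WMU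
`mulF w (mu P) - mu (w P) ∈ ZZ ((b+1) 2 ^ k')` for `P ∈ LQ`.  So `pr ρ S U₀ ≤ range mu + ZZ`, `dr ≤ dim A = N`; and `2 N ≤ 2 d dim LQ`.  PET: `U ≤ U₀` with `N ≤ 2 d dim U` and
`dr (ZZ 2^k') (S^(b+1) U) ≤ (2d)^(b+1) dim U ≤ (2d)^(b+1) N =: M`.  Every `e < 2 ^ k' ≤ 2 ^ (q b)` is `∑_(j<b) 2 ^ (q j) e_j`, `e_j < 2 ^ q`, and `h e = ∏_j h (2 ^ (q j) e_j)` (HPR), so
`mulF (X ^ t h_e) u ∈ S^(b+1) U` for `u ∈ U`, `t < q`.  KRK with `L = r = 2 ^ k'`: `Φ`, and if `mu P ∈ U` then `P ∈ LL (mu n g) Φ (2 ^ k')` (a multiple `Φ f` of degree `< 2 ^ k'` has `deg f < 2 ^ k'`).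
So `dim LL ≥ dim U`. -/
def StrStmt : Prop :=
  ∀ (n : ℕ) (g : ℤ[X]), Cyc n g → ∀ q k k' b d : ℕ, 0 < q → 0 < b → k' ≤ q * b →
    (b + 2) * 2 ^ k' ≤ 2 ^ k → n * g.natDegree ≤ d * finrank ℚ (LQ n g q k) →
    (2 * d) ^ (b + 1) * (n * g.natDegree) < q * 2 ^ k' →
    ∃ Φ : KK[X], Φ ≠ 0 ∧ q * Φ.natDegree ≤ (2 * d) ^ (b + 1) * (n * g.natDegree) ∧
      n * g.natDegree ≤ 2 * d * finrank ℚ (LL (mu n g) Φ (2 ^ k'))

/-- **CAC** (medium assembly, uses STR CHN DAT).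
Proof.  `κ = (2d)^(b+1)`, `N = n D`.  STR gives `Φ_S` (`κ N < q 2 ^ k'` because `32 d κ N ≤ q r₀ ≤ q 2 ^ k'`, `N > 0`).  CHN for the `T` of DAT, `k₀ = ℚ`, `K = KK`, with
`c = q / (8 d κ)`, `dim A = N`: `4 N ≤ c r₀`; `c deg Φ_i ≤ N` is `q deg Φ_i ≤ 8 d κ N`.  `dim LL Φ_S (2 ^ J r₀) ≥ dim LL Φ_S (2 ^ k') ≥ N / (2 d)` (`LL_mono_r`), and
`2 c deg Φ_S ≤ 2 c κ N / q = N / (4 d)`, so `dim LL Φ_J (2 ^ J r₀) ≥ N / (4 d)`. -/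
def CacStmt : Prop :=
  ∀ (n : ℕ) (g : ℤ[X]), Cyc n g → ∀ q k k' b d J r₀ : ℕ, 0 < q → 0 < b → 0 < d → k' ≤ q * b →
    (b + 2) * 2 ^ k' ≤ 2 ^ k → n * g.natDegree ≤ d * finrank ℚ (LQ n g q k) →
    32 * d * (2 * d) ^ (b + 1) * (n * g.natDegree) ≤ q * r₀ → 2 ^ J * r₀ ≤ 2 ^ k' →
    ∃ Φ : ℕ → KK[X],
      (∀ i ≤ J, Φ i ≠ 0 ∧ q * (Φ i).natDegree ≤ 8 * d * (2 * d) ^ (b + 1) * (n * g.natDegree)) ∧
      (∀ i < J, Φ (i + 1) ∣ Φ i ∧ Φ (i + 1) ∣ (Φ i).comp FK) ∧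
      n * g.natDegree ≤ 4 * d * finrank ℚ (LL (mu n g) (Φ J) (2 ^ J * r₀))

end Pool.Agent.EDX
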