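import Pool.Agent.EDX.Stmts1

/-!
# Squad EDX, blocks M (modulo 2), C (periodic components), T (2-adic index)

One statement per row; every docstring contains a complete proof.  Notation: `D = g.natDegree`; `FF` is an algebraic
closure of the field with two elements; in `FF` one has `it θ (-θ) i = θ ^ (2 ^ i)` and `F ≡ y ^ 2`, `h_e ≡ y ^ e` modulo `2`.
Facts to import (squad EDG, proved): MOA (`θ ^ (2 ^ n) = θ`, `θ ^ (2 ^ l) ≠ θ` for `0 < l < n`, for every root `θ` of `g` in a field of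
characteristic `2`), MOB (`g` modulo `2` is separable, `n ≤ D`).
-/

set_option autoImplicit false

namespace Pool.Agent.EDX

open Polynomial Finset Pool.Agent.EDG Module

/-! ### Block M -/

open Classical in
/-- the Lagrange polynomial of the root `θ` of `g` (value `1` at `θ`, `0` at the other roots) -/
noncomputable def Lg (g : ℤ[X]) (θ : FF) : FF[X] := Lagrange.basis (rts g) id θ

/-- **INT** (easy-medium).  Integral representative.
Proof.  Clear denominators of `Φ` (`IsLocalization.integerNormalization`, or multiply by the product of the denominators): `Ψ₀.map iK = C a₀ * Φ`, `a₀ ≠ 0`.  Let `2 ^ k` be the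
largest power of `2` dividing all coefficients of the coefficients of `Ψ₀ ≠ 0`, `Ψ₀ = 2 ^ k Ψ`. -/
def IntStmt : Prop :=
  ∀ Φ : KK[X], Φ ≠ 0 → ∃ (Ψ : ℤ[X][X]) (a : KK), a ≠ 0 ∧ Ψ.map iK = C a * Φ ∧ red2 Ψ ≠ 0

/-- **RED** (medium).  A basis of integral vectors which stays independent modulo `2`.
Proof.  `Λ = S ∩ ℤ ^ ι` is a free abelian group of rank `s = dim S` (it spans `S`: clear denominators); let `b_1, ..., b_s` be a `ℤ`-basis.  If `∑ l_j b_j = 2 v` with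
`v ∈ ℤ ^ ι`, then `v ∈ S`, so `v ∈ Λ` and all `l_j` are even.  So the `b_j` are independent over `ZMod 2`, some `s × s` minor of the matrix `(b_j i)` is odd, it is not `0` in
`FF`, so they are independent over `FF`. -/
def RedStmt : Prop :=
  ∀ (ι : Type) [Fintype ι] (S : Submodule ℚ (ι → ℚ)), ∃ b : Fin (finrank ℚ S) → ι → ℤ,
    (∀ j, (fun i => ((b j i : ℤ) : ℚ)) ∈ S) ∧ LinearIndependent FF (fun j i => ((b j i : ℤ) : FF))

/-- **MDA** (medium).  The relation modulo `2`.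
Proof.  `Φ h_j` has degree `< r` in `y`: `Φ h_j = ∑_(e<r) C (a_e) h_e` with `a_e ∈ ℤ[X]` (the `h_e` are monic of degree `e`).  `mu P (Φ h_j) = ∑ iK(a_e) iQ(N_P(e)) = 0` is, by `iQ_map` and `NP_map`,
`iK (∑ a_e NP ℤ n g P e) = 0`, so `∑_(e<r) a_e NP ℤ n g P e = 0` in `ℤ[X]`; map to `FF[X]` (`NP_map`).  Modulo `2` one has `F = y ^ 2`, `h_e = y ^ e` (induction along the recursion), so `∑ C (ā_e) y ^ e` is the image of
`Φ y ^ j`. -/
def MdaStmt : Prop :=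
  ∀ (n : ℕ) (g : ℤ[X]), Cyc n g → ∀ (Φ : ℤ[X][X]) (P : Fin n × Fin g.natDegree → ℤ) (r : ℕ),
    (fun x => ((P x : ℤ) : ℚ)) ∈ LL (mu n g) (Φ.map iK) r → ∀ j, Φ.natDegree + j < r →
    ∑ e ∈ range r, (Φ.map (mapRingHom (Int.castRingHom FF)) * X ^ j).coeff e *
      NP FF n g (fun x => ((P x : ℤ) : FF)) e = 0

/-- **MDB** (medium).  Partial fractions.
Proof.  Both sides are additive in `f` and `FF[X]`-linear in `f`, so take `f = X ^ e`, `e < r`: the claim is `N_P(e) = ∑_θ ∑_i P_i(θ) L_θ(X) θ ^ (2 ^ i e)`.  `N_P(e)` has degree `< D` (`NP_degree_lt`) and `g` has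
`D` distinct roots in `FF` (MOB, algebraically closed), so it is `∑_θ N_P(e)(θ) L_θ` (Lagrange), and `N_P(e)(θ) = ∑_i h_e(θ, y_i(θ)) P_i(θ)` because `g(θ) = 0`, `y_i(θ) = it θ (-θ) i = θ ^ (2 ^ i)`,
`h_e(θ, t) = t ^ e` in characteristic `2`. -/
def MdbStmt : Prop :=
  ∀ (n : ℕ) (g : ℤ[X]), Cyc n g → ∀ (P : Fin n × Fin g.natDegree → FF) (f : FF[X][X]) (r : ℕ),
    f.natDegree < r →
    ∑ e ∈ range r, f.coeff e * NP FF n g P e =
      ∑ θ ∈ rts g, ∑ i : Fin n, C ((pol P i).eval θ) * Lg g θ *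
        f.eval (C (θ ^ (2 ^ (i : ℕ))))

/-- **MDC** (medium).
Proof.  The map `θ ↦ θ ^ (2 ^ i)` is a bijection of `rts g` onto itself (`g` has integer coefficients, Frobenius).  The hypothesis is `∑_ω ω ^ j φ(ω) W_ω = 0` in `FF[X]` for `j < D`, with
`W_ω = ∑_i P_i(θ(ω,i)) L_(θ(ω,i))`, `θ(ω,i) ^ (2 ^ i) = ω`.  The `D` roots `ω` are distinct: Vandermonde gives `φ(ω) W_ω = 0` for every `ω`.  If `φ(ω) ≠ 0` then `W_ω = 0`.  The `θ(ω,i)`, `i < n`, are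
distinct (if `θ ^ (2 ^ i) = θ ^ (2 ^ j) = ω`, `i < j < n`, then, `θ ↦ θ ^ (2 ^ i)` being injective, `θ = θ ^ (2 ^ (j-i))`, against MOA), the `L_θ` are linearly independent, so all `P_i(θ(ω,i)) = 0`. -/
def MdcStmt : Prop :=
  ∀ (n : ℕ) (g : ℤ[X]), Cyc n g → ∀ (P : Fin n → FF → FF) (φ : FF → FF[X]),
    (∀ j < g.natDegree, ∑ θ ∈ rts g, ∑ i : Fin n, C (P i θ) * Lg g θ *
      (φ (θ ^ (2 ^ (i : ℕ))) * C (θ ^ (2 ^ (i : ℕ) * j))) = 0) →
    ∀ θ ∈ rts g, ∀ i : Fin n, φ (θ ^ (2 ^ (i : ℕ))) ≠ 0 → P i θ = 0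

/-- **MDD** (easy-medium).
Proof.  The linear map `P ↦ ((pol P i)(θ))` over the pairs `(i, θ)` with `θ ∈ rts g`, `θ ^ (2 ^ i) ∈ Θ` is injective on the span of the `b l`: in the kernel every `pol P i`, of degree `< D`, vanishes at the `D` distinct
roots (MOB), so it is `0` and `P = 0` (`pol_coeff`).  The number of pairs is at most `n * card Θ` (`θ ↦ θ ^ (2 ^ i)` is injective on `FF`). -/
def MddStmt : Prop :=
  ∀ (n : ℕ) (g : ℤ[X]), Cyc n g → ∀ (Θ : Finset FF) (s : ℕ)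
    (b : Fin s → Fin n × Fin g.natDegree → FF), LinearIndependent FF b →
    (∀ l, ∀ θ ∈ rts g, ∀ i : Fin n, θ ^ (2 ^ (i : ℕ)) ∉ Θ → (pol (b l) i).eval θ = 0) →
    s ≤ n * Θ.card

/-- **MD2** (medium assembly, uses RED MDA MDB MDC MDD).
Proof.  RED for `S = LL (mu n g) (Φ.map iK) r`: integral vectors `b_l ∈ S`, independent in `FF`.  For each of them and `j < D` MDA (`deg Φ + j < r`) and MDB with
`f = Φ.map (mapRingHom (Int.castRingHom FF)) * X ^ j` (degree `< r`) give the hypothesis of MDC with `P i θ = (pol b_l i)(θ)`, `φ(ω) = vt ω Φ` (the value of `f` at `C ω` is `vt ω Φ * C (ω ^ j)`).  So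
`(pol b_l i)(θ) = 0` if `vt (θ ^ (2 ^ i)) Φ ≠ 0`; `θ ^ (2 ^ i) ∈ rts g`, so this is `θ ^ (2 ^ i) ∉ Th g Φ`.  MDD with `Θ = Th g Φ`. -/
def Md2Stmt : Prop :=
  ∀ (n : ℕ) (g : ℤ[X]), Cyc n g → ∀ (Φ : ℤ[X][X]) (r : ℕ), Φ.natDegree + g.natDegree ≤ r →
    finrank ℚ (LL (mu n g) (Φ.map iK) r) ≤ n * (Th g Φ).card

/-- **FUL** (medium-strong, uses RED MDB).
Proof.  If not, RED gives an integral `P ∈ LQ n g n k` which is not `0` in `FF`.  Let `P̄` be its image, `N_P̄(e)` has no coefficient of index `≥ D - n` for `e < D ≤ 2 ^ k` (`NP_map`).  MDB for `f = X ^ e`: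
`N_P̄(e) = ∑_ω ω ^ e W_ω`, `W_ω = ∑_i P̄_i(θ(ω,i)) L_(θ(ω,i))` (`θ(ω,i) ^ (2 ^ i) = ω`, a bijection `θ ↔ ω` of `rts g` for every `i`).  By the inverse of the Vandermonde matrix `(ω ^ e)` each `W_ω` is an `FF`-combination of the
`N_P̄(e)`, `e < D`, so it has degree `< D - n`.  The `θ_i = θ(ω,i)`, `i < n`, are distinct (MOA, see MDC); `L_(θ_i)` is a constant times `∏_(θ ≠ θ_i) (X - θ)`, so `W_ω` vanishes at the
`D - n` roots of `g` different from `θ_0, ..., θ_(n-1)` and has degree `< D - n`: `W_ω = 0`, and all `P̄_i(θ_i) = 0` (the `L_θ` are independent).  So every `pol P̄ i` vanishes at all `D` roots: `P̄ = 0`, contradiction. -/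
def FulStmt : Prop :=
  ∀ (n : ℕ) (g : ℤ[X]), Cyc n g → ∀ k : ℕ, g.natDegree ≤ 2 ^ k → LQ n g n k = ⊥

/-! ### Block C -/

/-- **FRO** (easy).
Proof.  `vt θ (ψ ∘ F) = vt (θ ^ 2) ψ` (`F ≡ y ^ 2` in characteristic `2`; ring homomorphisms which agree on the generators), and `vt (θ ^ 2) = (mapRingHom (frobenius FF 2)).comp (vt θ)` (the coefficients are
integers, fixed by Frobenius), which is injective after `vt θ`. -/
def FroStmt : Prop := ∀ (θ : FF) (ψ : ℤ[X][X]), vt θ (ψ.comp F) = 0 ↔ vt θ ψ = 0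

/-- **IRF** (easy-medium).
Proof.  `Φ ≠ 0` is a unit times a product of irreducibles of the factorial ring `ℤ[X][X]`; `FF[X]` is a domain, so some irreducible factor `ψ` has `vt θ ψ = 0`.  If `natDegree ψ = 0`, `ψ = C p`, then
`p.map = 0` in `FF[X]`, all coefficients of `p` are even, `2 ∣ ψ ∣ Φ`, so `red2 Φ = 0`: contradiction. -/
def IrfStmt : Prop :=
  ∀ Φ : ℤ[X][X], red2 Φ ≠ 0 → ∀ θ : FF, vt θ Φ = 0 →
    ∃ ψ : ℤ[X][X], Irreducible ψ ∧ 0 < ψ.natDegree ∧ ψ ∣ Φ ∧ vt θ ψ = 0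

/-- **STP** (medium).
Proof.  By Gauss (`Polynomial.IsPrimitive.irreducible_iff_irreducible_map_fraction_map`, an irreducible polynomial of positive degree is primitive) `ψ.map iK` is irreducible, hence prime, in `KK[X]`.  Write `Φ` as a
unit times a product of irreducibles `π`; `Φ ∘ FK` is the product of the `π ∘ FK`, so `ψ.map iK ∣ π ∘ FK` for some irreducible `π ∣ Φ`, of positive degree.  A primitive integral multiple `ψ'` of `π` is irreducible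
in `ℤ[X][X]` (Gauss), `ψ'.map iK ∣ Φ`, and `ψ.map iK ∣ (ψ' ∘ F).map iK` gives `ψ ∣ ψ' ∘ F` (`ψ` is primitive: `Polynomial.IsPrimitive.dvd_iff_fraction_map_dvd_fraction_map` or the variant with one primitive polynomial). -/
def StpStmt : Prop :=
  ∀ ψ : ℤ[X][X], Irreducible ψ → 0 < ψ.natDegree → ∀ Φ : KK[X], Φ ≠ 0 →
    ψ.map iK ∣ Φ.comp FK →
    ∃ ψ' : ℤ[X][X], Irreducible ψ' ∧ 0 < ψ'.natDegree ∧ ψ'.map iK ∣ Φ ∧ ψ ∣ ψ'.comp F

/-- **CNT** (medium).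
Proof.  Let `R` be a finite set of pairwise non associated irreducible polynomials of `ℤ[X][X]` of positive degree containing one representative of each `ψ θ j` (`θ ∈ Θ`, `j ≤ J`).  Their images in `KK[X]` are
irreducible and pairwise non associated (Gauss), so the product of the images divides `Φ`: `∑_(ψ∈R) natDegree ψ ≤ natDegree Φ`.  For `ψ ∈ R` the number of `θ ∈ FF` with `vt θ ψ = 0` is at most `natDegree ψ`: `ψ` is primitive, so
`red2 ψ ≠ 0`, some coefficient `c(y) ∈ (ZMod 2)[y]` of a power of `X` in `ψ` modulo `2` is not `0`, it has degree `≤ natDegree ψ` and vanishes at every such `θ`.  The `(J+1) card Θ` pairs `(θ, class of ψ θ j)` are distinct. -/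
def CntStmt : Prop :=
  ∀ (Φ : KK[X]) (J : ℕ) (Θ : Finset FF) (ψ : FF → ℕ → ℤ[X][X]), Φ ≠ 0 →
    (∀ θ ∈ Θ, ∀ j ≤ J, Irreducible (ψ θ j) ∧ 0 < (ψ θ j).natDegree ∧ (ψ θ j).map iK ∣ Φ ∧
      vt θ (ψ θ j) = 0) →
    (∀ θ ∈ Θ, ∀ i j, i < j → j ≤ J → ¬ Associated (ψ θ i) (ψ θ j)) →
    (J + 1) * Θ.card ≤ Φ.natDegree

/-- **PGN** (medium assembly, uses FRO IRF STP CNT).
Proof.  For `θ ∈ Th g Ψ` (so `vt θ Ψ = 0`): IRF gives `ψ_0 ∣ Ψ`, so `ψ_0.map iK ∣ Φ J`.  By induction on `j ≤ J`: `ψ_j.map iK ∣ Φ (J-j)`, irreducible of positive degree, `vt θ ψ_j = 0`, and, for `j < J`,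
`ψ_j.map iK ∣ Φ (J-j) ∣ Φ (J-j-1) ∘ FK`, STP gives `ψ_(j+1)` with `ψ_j ∣ ψ_(j+1) ∘ F`, so `vt θ (ψ_(j+1) ∘ F) = 0`, FRO: `vt θ ψ_(j+1) = 0`.  All `ψ_j.map iK` divide `Φ 0`.  If for every `θ` the `ψ_j` are pairwise non associated, CNT contradicts
the last hypothesis.  So `ψ_i`, `ψ_j` are associated for some `θ`, `i < j ≤ J`; `ψ_i ∣ ψ_j ∘ Fit (j-i)` (composition, `Fit (k+1) = Fit k ∘ F`; `Fit k ∘ F = F ∘ Fit k`), so `ψ = ψ_i`, `m = j - i`. -/
def PgnStmt : Prop :=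
  ∀ (g : ℤ[X]) (J : ℕ) (Φ : ℕ → KK[X]) (Ψ : ℤ[X][X]), (∀ i ≤ J, Φ i ≠ 0) →
    (∀ i < J, Φ (i + 1) ∣ Φ i ∧ Φ (i + 1) ∣ (Φ i).comp FK) → red2 Ψ ≠ 0 → Ψ.map iK ∣ Φ J →
    (Φ 0).natDegree < (J + 1) * (Th g Ψ).card →
    ∃ (ψ : ℤ[X][X]) (θ : FF) (m : ℕ), Irreducible ψ ∧ 0 < ψ.natDegree ∧ ψ.map iK ∣ Φ 0 ∧
      θ ∈ rts g ∧ vt θ ψ = 0 ∧ 0 < m ∧ ψ ∣ ψ.comp (Fit m)

/-- **PRD** (medium; adapt `Pool/Agent/Helper74_EDG/PER.lean`).
Proof.  Let `K` be an algebraic closure of the fraction field of `ℤ[X]`, `S` the finite nonempty set of roots of `ψ` in `K`.  The iterate `F^m` (with `X ∈ K`) maps `S` to `S`, so some `ρ ∈ S` satisfies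
`F^(m l)(ρ) = ρ`, `l > 0`.  `ψ` is primitive and irreducible over the fraction field, so it divides every polynomial of `ℤ[X][X]` which vanishes at `ρ` (Gauss): `ψ ∣ Fit (m l) - X`.  Take the least `p > 0` with
`ψ ∣ Fit p - X`. -/
def PrdStmt : Prop :=
  ∀ (ψ : ℤ[X][X]) (m : ℕ), Irreducible ψ → 0 < ψ.natDegree → 0 < m → ψ ∣ ψ.comp (Fit m) →
    ∃ p, 0 < p ∧ ψ ∣ Fit p - X ∧ ∀ k, 0 < k → k < p → ¬ ψ ∣ Fit k - X

/-- **NDV** (easy).
Proof.  `vt θ (Fit p) = C (θ ^ (2 ^ p))` (`F ≡ y ^ 2`), so `θ ^ (2 ^ p) = θ`.  With `p = n q + l`, `l < n`: `θ ^ (2 ^ l) = θ` (`θ ^ (2 ^ n) = θ`), so `l = 0` by MOA. -/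
def NdvStmt : Prop :=
  ∀ (n : ℕ) (g : ℤ[X]), Cyc n g → ∀ (θ : FF) (ψ : ℤ[X][X]) (p : ℕ), θ ∈ rts g → vt θ ψ = 0 →
    ψ ∣ Fit p - X → n ∣ p

/-- **CSA** (medium assembly: CASE A, uses CAC INT MD2 PGN PRD NDV and the statement `Pool.Agent.EDG.CmpStmt`, in this order).
Proof.  `κ = (2d)^(b+1)`.  CAC gives `Φ 0, ..., Φ J`.  INT for `Φ J`: `Ψ` (same degree, `Ψ.map iK` and `Φ J` divide each other, so `LL` is the same).  `q (natDegree Ψ + D) ≤ 8 d κ n D + n D ≤ 32 d κ n D ≤ q r₀`, so MD2 with `r = 2 ^ J r₀`: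
`n D ≤ 4 d n card (Th g Ψ)`, `D ≤ 4 d card (Th g Ψ)`.  If `(J+1) card (Th g Ψ) ≤ natDegree (Φ 0)` then `q (J+1) D ≤ 4 d * 8 d κ n D`, against the hypothesis on `J`.  PGN: `ψ`, `θ`, `m'`; PRD: `p`; NDV: `n ∣ p`, so `n ≤ p`.  The leading coefficient of `ψ` divides
that of the monic polynomial `Fit p - X` (`p ≥ 1`), so it is a unit of `ℤ[X]`, `1` or `-1`: replace `ψ` by `-ψ`.  `q natDegree ψ ≤ 8 d κ n D`, so `2 natDegree ψ ≤ 2 ^ m`; `CmpStmt` for the period `p`. -/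
def CsaStmt : Prop :=
  ∀ (n : ℕ) (g : ℤ[X]), Cyc n g → ∀ q k k' b d J r₀ m : ℕ, 0 < q → 0 < b → 0 < d → q ≤ n →
    k' ≤ q * b → (b + 2) * 2 ^ k' ≤ 2 ^ k → n * g.natDegree ≤ d * finrank ℚ (LQ n g q k) →
    32 * d * (2 * d) ^ (b + 1) * (n * g.natDegree) ≤ q * r₀ → 2 ^ J * r₀ ≤ 2 ^ k' →
    32 * d * d * (2 * d) ^ (b + 1) * n < (J + 1) * q →
    16 * d * (2 * d) ^ (b + 1) * (n * g.natDegree) ≤ q * 2 ^ m →
    ∃ p, n ≤ p ∧ p ≤ m + p.primeFactors.card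

/-! ### Block T -/

/-- **BAS** (medium-strong, uses FUL).
Proof.  `B(P, v) = coeff_(D-1) ((∑_i pol v i * pol P i) mod g)` on `A = (Fin n × Fin D → ℚ)` is nondegenerate (if `P_i ≠ 0` has degree `t`, take `v_i = X ^ (D-1-t)`).  `B(P, vec s e) = coeff_(D-1) (((2X)^s N_P(e)) mod g)`.  Let
`R(q)` be the span of the `vec s e`, `s < q`, `e < 2 ^ k`.  Its annihilator is `LQ n g q k`: for `P` in it, `deg N_P(e) < D - s` for `s = 0, 1, ..., q` by induction (`X ^ s N_P(e)` has then degree `< D`, its coefficient `D - 1` is `coeff_(D-1-s) N_P(e)`), and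
conversely (if `q ≥ D` then both sides say `N_P(e) = 0`; here `q ≤ n ≤ D` by MOB).  So `dim R(q) = n D - dim LQ n g q k`, and `R(n) = A` by FUL.  Choose a basis of `R(q)` among the `vec s e` with `s < q` and complete it to a basis
of `A` by other `vec s e`, `s < n`: this is `σ` (injective because the vectors are independent). -/
def BasStmt : Prop :=
  ∀ (n : ℕ) (g : ℤ[X]), Cyc n g → ∀ q k : ℕ, q ≤ n → g.natDegree ≤ 2 ^ k →
    ∃ σ : Fin n × Fin g.natDegree → ℕ × ℕ, Function.Injective σ ∧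
      (∀ x, (σ x).1 < n ∧ (σ x).2 < 2 ^ k) ∧
      (Matrix.of fun x y => vec n g (σ y).1 (σ y).2 x).det ≠ 0 ∧
      (univ.filter fun x => q ≤ (σ x).1).card ≤ finrank ℚ (LQ n g q k)

/-- **CLS** (STRONG; import CNG GRF EXP of squad EDG).
Proof.  `O = ℤ[X]/(g)`, `β` the class of `X`, `y_i = it β (-β) i`, `M ≥ n` and `τ_i = β ^ (2 ^ (M+i))` with `y_i ≡ F^n(τ_i) mod 2 ^ n` (CNG with `s = n`), `G` monic of degree `D` with `G(τ_i) ≡ 0 mod 2 ^ M` (GRF).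
`(2β)^s h_e(β, y_i) ≡ (2β)^s h_(2^n e)(β, τ_i) ≡ ∑_(l<n) (2β)^l V_l(τ_i) mod 2 ^ n` (EXP with `p = X ^ s`, `j = s`, `N = 2 ^ n e`; the `V_l ∈ ℤ[X]` do not depend on `i`).  So for every `ℤ`-combination `w` of the `vec s e` there are `V_l` with
`w_i ≡ ∑_(l<n) (2β)^l V_l(τ_i) mod 2 ^ n` in `O` for all `i < n` (`w_i` = the element of `O` with coordinates `w (i, ·)`); `V_l` may be replaced by its remainder modulo `G`, and only its coefficients modulo `2 ^ (n-l)` matter.  So the number of classes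
modulo `2 ^ n` is at most `∏_(l<n) 2 ^ ((n-l) D) = 2 ^ (D n (n+1) / 2)`. -/
def ClsStmt : Prop :=
  ∀ (n : ℕ) (g : ℤ[X]), Cyc n g →
    {w : Fin n × Fin g.natDegree → ZMod (2 ^ n) | ∃ (a : ℕ → ℕ → ℤ) (B : ℕ), ∀ x,
      w x = ((∑ s ∈ range B, ∑ e ∈ range B, a s e * vec n g s e x : ℤ) : ZMod (2 ^ n))}.ncard ≤
      2 ^ (g.natDegree * (n * (n + 1) / 2))

/-- **IDX** (medium).
Proof.  `ℤ^ι / M ℤ^ι` has `|det M|` elements (`Submodule.natAbs_det_equiv`, `Int...`; Smith normal form), it maps onto `(ZMod 2^n)^ι / W`, `W` = the image of `M ℤ^ι` (the set of the statement), which has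
`2 ^ (n card ι) / |W| ≥ 2 ^ (n card ι) / 2 ^ c` elements. -/
def IdxStmt : Prop :=
  ∀ (ι : Type) [Fintype ι] [DecidableEq ι] (M : Matrix ι ι ℤ) (n c : ℕ), M.det ≠ 0 →
    {w : ι → ZMod (2 ^ n) | ∃ a : ι → ℤ, ∀ x, w x = ((M.mulVec a x : ℤ) : ZMod (2 ^ n))}.ncard ≤
      2 ^ c → 2 ^ (n * Fintype.card ι) ≤ 2 ^ c * M.det.natAbs

/-- **VAN** (medium).
Proof.  `g` is irreducible over `ℚ` (Gauss), so separable: it has `D` distinct complex roots `β`.  The square of the Vandermonde determinant is, up to sign, the discriminant of `g`, a nonzero integer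
(for instance the determinant of the integer matrix of the power sums `∑_t β_t ^ (i+j)` = `V^T V`, which are integers: traces). -/
def VanStmt : Prop :=
  ∀ (n : ℕ) (g : ℤ[X]), Cyc n g → ∃ β : Fin g.natDegree → ℂ, Function.Injective β ∧
    (∀ t, aeval (β t) g = 0) ∧ 1 ≤ ‖(Matrix.vandermonde β).det‖

/-- **TAD** (medium assembly, uses BAS CLS IDX VAN).
Proof.  `σ` of BAS, `M = (vec n g (σ y).1 (σ y).2 x)`, `N = n D`.  The set of IDX is contained in the set of CLS (`σ` is injective: `a (s, e)` = the coefficient at `σ⁻¹ (s, e)`), so `2 ^ (n N) ≤ 2 ^ (D n (n+1)/2) |det M|`,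
`|det M| ≥ 2 ^ (D n (n-1)/2)` (`n (n+1)/2 + n (n-1)/2 = n ^ 2`).  The value at `β_t` of `((2X)^s h_e(X, Yp i)) mod g` is `∑_j (vec (i,j)) β_t ^ j`, so the matrix of the statement is `(I_n ⊗ V) M`, `V` the Vandermonde matrix, of determinant
`(det V)^n det M`. -/
def TadStmt : Prop :=
  ∀ (n : ℕ) (g : ℤ[X]), Cyc n g → ∀ q k : ℕ, q ≤ n → g.natDegree ≤ 2 ^ k →
    ∃ (β : Fin g.natDegree → ℂ) (σ : Fin n × Fin g.natDegree → ℕ × ℕ),
      (∀ t, aeval (β t) g = 0) ∧ Function.Injective σ ∧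
      (∀ x, (σ x).1 < n ∧ (σ x).2 < 2 ^ k) ∧
      (univ.filter fun x => q ≤ (σ x).1).card ≤ finrank ℚ (LQ n g q k) ∧
      (2 : ℝ) ^ (g.natDegree * (n * (n - 1) / 2)) ≤
        ‖(Matrix.of fun x y : Fin n × Fin g.natDegree => (2 * β x.2) ^ (σ y).1 *
          ev (β x.2) (it (β x.2) (-β x.2) (x.1 : ℕ)) (h (σ y).2)).det‖

end Pool.Agent.EDX
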