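import Pool.Agent.EDX.Stmts2

/-!
# Squad EDX, block A (archimedean determinant)

One statement per row; every docstring contains a complete proof.  `b` is the parameter, `y` the variable, `x = b + y`;
if `x_j = b + it b y j` then `x_(j+1) = x_j ^ 2 + c`, `c = b - b ^ 2`, and `‖c‖ ≤ 2` for `b ∈ PP` (it is `b + it b (-b) 1`).
-/

set_option autoImplicit false

namespace Pool.Agent.EDX

open Polynomial Finset Pool.Agent.EDG Module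

/-- **BN2** (easy; compare `Pool/Agent/Helper24_EDG/BND.lean`).
Proof.  `x_i = b + it b (-b) i`, `c = b - b ^ 2`: `x_0 = 0`, `x_(i+1) = x_i ^ 2 + c`, `x_n = 0` (`g(b) = 0` and `g ∣ Yp n - Yp 0`).  `‖c‖ ≤ 2`: otherwise `‖x_i‖ ≥ ‖c‖ > 2` for all `i ≥ 1` (induction: `‖x_i‖ ^ 2 - ‖c‖ ≥
‖c‖ (‖c‖ - 1) ≥ ‖c‖`), against `x_n = 0`.  `‖x_i‖ ≤ 2`: otherwise the norms increase strictly from `i` on, against periodicity.  `‖b‖ ^ 2 ≤ ‖b‖ + 2`, so `‖b‖ ≤ 2`.  `it b (it b (-b) i) j = it b (-b) (i + j)` (`it_add`). -/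
def Bn2Stmt : Prop :=
  ∀ (n : ℕ) (g : ℤ[X]), Cyc n g → ∀ b : ℂ, aeval b g = 0 →
    b ∈ PP ∧ ∀ i, (b, it b (-b) i) ∈ KP

/-- **CPK** (easy).  Proof.  Both sets are closed (intersections of closed conditions, `it` is a polynomial) and bounded (`‖b‖ ≤ 2`, `‖y‖ ≤ ‖b + y‖ + ‖b‖ ≤ 4`).  Last part: `it_add`. -/
def CpkStmt : Prop :=
  IsCompact PP ∧ IsCompact KP ∧ ∀ b y : ℂ, (b, y) ∈ KP → ∀ j, (b, it b y j) ∈ KP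

/-- **SQA** (medium).  Analytic square root on a disc.
Proof.  `deriv u / u` has a primitive `v` on the ball (`DifferentiableOn.isExactOn_ball`, file `Mathlib/Analysis/Complex/HasPrimitives.lean`); `u * exp (-v)` has derivative `0`, so it is a constant `k ≠ 0` on the ball; with `exp κ = k`
take `s = exp ((v + κ) / 2)`. -/
def SqaStmt : Prop :=
  ∀ (z₀ : ℂ) (r : ℝ) (u : ℂ → ℂ), 0 < r → DifferentiableOn ℂ u (Metric.ball z₀ r) →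
    (∀ z ∈ Metric.ball z₀ r, u z ≠ 0) →
    ∃ s : ℂ → ℂ, DifferentiableOn ℂ s (Metric.ball z₀ r) ∧ ∀ z ∈ Metric.ball z₀ r, s z ^ 2 = u z

/-- the `2 ^ q` inverse branches of the `q`-th iterate (from the `x`-coordinate) on the disc of centre `4`, radius `1` -/
def IsInv (b : ℂ) (q : ℕ) (φ : Fin (2 ^ q) → ℂ → ℂ) : Prop :=
  (∀ l, DifferentiableOn ℂ (φ l) (Metric.ball 4 1)) ∧
  (∀ l, ∀ w ∈ Metric.ball (4 : ℂ) 1, b + it b (φ l w) q = w) ∧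
  (∀ w ∈ Metric.ball (4 : ℂ) 1, ∀ l l', φ l w = φ l' w → l = l')

/-- **IVB** (medium, uses SQA).
Proof.  Induction on `q`; `q = 0`: `φ w = w - b`.  Step: for a branch `φ` of level `q`, `φ(w) + b ^ 2 ≠ 0` on the disc (otherwise `φ(w) = -b ^ 2 = it b (-b) 1` and `w = b + it b (-b) (q+1)` has norm `≤ 2`, but `‖w‖ > 3`); let `s ^ 2 = φ + b ^ 2` (SQA),
`ψ_± = -b ± s`: `ψ ^ 2 + 2 b ψ = (ψ + b) ^ 2 - b ^ 2 = φ`, so `b + it b ψ (q+1) = b + it b φ q = w` (`it_succ'`).  The `2 ^ (q+1)` branches are distinct at every point: `s ≠ 0`, and `F(ψ)` recovers `φ`.  Index `Fin (2 ^ (q+1))` by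
`Fin (2 ^ q) × Bool` (any equivalence). -/
def IvbStmt : Prop :=
  ∀ b ∈ PP, ∀ q : ℕ, ∃ φ : Fin (2 ^ q) → ℂ → ℂ, IsInv b q φ

/-- **LGF** (medium).
Proof.  `ζ_l = φ l 4` are `2 ^ q` distinct zeros of the monic polynomial `Π = C b + (Fit q evaluated at X = b) - C 4` of degree `2 ^ q` (`ev_Fit`; `Fit q = h (2 ^ q)` is monic of degree `2 ^ q`), so `Π = ∏_l (y - ζ_l)`, `Π'(ζ_l) = ∏_(l' ≠ l) (ζ_l - ζ_l')`.
`Π(φ_l(w)) = w - 4` on the disc, so `Π'(ζ_l) φ_l'(4) = 1`.  `∏_(l' ≠ l) (y - ζ_l') = Π(y) / (y - ζ_l)`. -/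
def LgfStmt : Prop :=
  ∀ (b : ℂ) (q : ℕ) (φ : Fin (2 ^ q) → ℂ → ℂ), IsInv b q φ → ∀ (y : ℂ) (l : Fin (2 ^ q)),
    y ≠ φ l 4 →
    ∏ l' ∈ univ.erase l, ((y - φ l' 4) / (φ l 4 - φ l' 4)) =
      (b + it b y q - 4) * (deriv (φ l) 4 / (y - φ l 4))

/-- **DSD** (easy-medium).  Distances.
Proof.  `ζ = φ l w`, `u_j = b + it b ζ j`, `v_j = b + it b y j`, both satisfy `x_(j+1) = x_j ^ 2 + c`, `‖c‖ ≤ 2`.  `‖v_j‖ ≤ 2`.  `‖u_j‖ ≤ 5` for `j ≤ q` (if `‖u_j‖ > 5` then `‖u_(j+1)‖ ≥ 25 - 2 > 5` and so on, but `‖u_q‖ = ‖w‖ < 5`).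
`‖u_0 - v_0‖ ≤ 7`; `u_(j+1) - v_(j+1) = (u_j - v_j)(u_j + v_j)`, `‖u_j + v_j‖ ≤ 7`, `1 ≤ ‖w‖ - 2 ≤ ‖u_q - v_q‖ ≤ 7 ^ q ‖u_0 - v_0‖`; `u_0 - v_0 = ζ - y`. -/
def DsdStmt : Prop :=
  ∀ (b y : ℂ) (q : ℕ) (φ : Fin (2 ^ q) → ℂ → ℂ), IsInv b q φ → (b, y) ∈ KP →
    ∀ l, ∀ w ∈ Metric.ball (4 : ℂ) 1, 1 / (7 : ℝ) ^ q ≤ ‖φ l w - y‖ ∧ ‖φ l w - y‖ ≤ 7

/-- **MVP** (STRONG analysis).  Mean value inequality for `|G| ^ 2` on a disc.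
Proof.  `G ^ 2` is analytic on the ball of radius `1`; for `0 < ρ ≤ 1/2` the circle mean of `G ^ 2` is `G(4) ^ 2` (`circleIntegral` Cauchy formula or `circleAverage`), so `‖G 4‖ ^ 2 ≤ (1/2π) ∫_0^(2π) ‖G(4 + ρ e^(iθ))‖ ^ 2 dθ`.  Multiply by `2 π ρ`
and integrate over `0 < ρ < 1/2` (polar coordinates, `Complex.lintegral_comp_polarCoord_symm` or the real integral version; `∫_0^(1/2) 2 π ρ dρ = π / 4`).  Another proof: for every `0 < t ≤ 1/2`, power series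
`G(4+z) = ∑ a_k z ^ k`, the functions `z ^ k` are orthogonal on the disc. -/
def MvpStmt : Prop :=
  ∀ G : ℂ → ℂ, DifferentiableOn ℂ G (Metric.ball 4 1) →
    ENNReal.ofReal (‖G 4‖ ^ 2 * (Real.pi / 4)) ≤
      ∫⁻ w in Metric.ball (4 : ℂ) (1 / 2), ENNReal.ofReal (‖G w‖ ^ 2)

/-- **ANN** (medium).
Proof.  Cut the annulus into the shells `7 / 2 ^ (j+1) < ‖u‖ ≤ 7 / 2 ^ j`, `0 ≤ j < 3 (q + 1)` (`2 ^ (3 (q+1)) ≥ 7 ^ (q+1)`, so they cover it).  On a shell with outer radius `R` the integrand is `≤ 4 / R ^ 2` and the area is `≤ π R ^ 2`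
(`Complex.volume_closedBall`): integral `≤ 4 π`.  Total `≤ 12 π (q+1) < 60 (q+1)`.  (Or polar coordinates: `2 π (q+1) log 7`.) -/
def AnnStmt : Prop :=
  ∀ q : ℕ, ∫⁻ u in {u : ℂ | 1 / (7 : ℝ) ^ q ≤ ‖u‖ ∧ ‖u‖ ≤ 7}, ENNReal.ofReal (1 / ‖u‖ ^ 2) ≤
    ENNReal.ofReal (60 * (q + 1))

/-- **ARE** (STRONG analysis, uses DSD ANN).  Area.
Proof.  `s = ball 4 (1/2)`.  `φ_l` is injective on `s` (`b + it b (φ_l w) q = w`) and differentiable, as a real map its differential has determinant `‖deriv φ_l w‖ ^ 2`, so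
`∫⁻_s ‖φ_l'(w)‖ ^ 2 / ‖y - φ_l(w)‖ ^ 2 = ∫⁻_(φ_l(s)) 1 / ‖y - ζ‖ ^ 2` (`MeasureTheory.lintegral_image_eq_lintegral_abs_det_fderiv_mul`).  The sets `φ_l(s)` are measurable and pairwise disjoint (`φ_l(w) = φ_l'(w')`
implies `w = w'` by applying the iterate, then `l = l'`), and they are contained in `{ζ : 1/7^q ≤ ‖ζ - y‖ ≤ 7}` (DSD).  Translate by `y` and use ANN. -/
def AreStmt : Prop :=
  ∀ (b y : ℂ) (q : ℕ) (φ : Fin (2 ^ q) → ℂ → ℂ), IsInv b q φ → (b, y) ∈ KP →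
    ∑ l, ∫⁻ w in Metric.ball (4 : ℂ) (1 / 2), ENNReal.ofReal (‖deriv (φ l) w / (y - φ l w)‖ ^ 2) ≤
      ENNReal.ofReal (60 * (q + 1))

/-- **LGB** (medium, uses LGF DSD MVP ARE).
Proof.  `G_l(w) = deriv (φ l) w / (y - φ l w)` is differentiable on `ball 4 1` (the derivative of a holomorphic function is holomorphic; the denominator does not vanish, DSD).  MVP and ARE: `(π/4) ∑_l ‖G_l(4)‖ ^ 2 ≤ 60 (q+1)`, so `∑ ‖G_l(4)‖ ^ 2 ≤ 80 (q+1)`;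
`‖b + it b y q - 4‖ ≤ 6`; LGF (`y ≠ φ l 4` by DSD): the sum is `≤ 36 * 80 (q+1) ≤ 3000 (q+1)`. -/
def LgbStmt : Prop :=
  ∀ (b y : ℂ) (q : ℕ) (φ : Fin (2 ^ q) → ℂ → ℂ), IsInv b q φ → (b, y) ∈ KP →
    ∑ l, ‖∏ l' ∈ univ.erase l, ((y - φ l' 4) / (φ l 4 - φ l' 4))‖ ^ 2 ≤ 3000 * (q + 1)

/-- **VDM** (medium-strong, algebra).
Proof.  `V = (h_e(b, ζ_l))`; the `h_e` are monic of degree `e`, so `det V` is the Vandermonde determinant of the `ζ_l` (`Matrix.det_eval_matrixOfPolynomials_eq_det_vandermonde`), not `0`, and `‖det V‖ ^ 2 = ∏_l ‖∏_(l' ≠ l) (ζ_l - ζ_l')‖ = ∏_l ‖Π'(ζ_l)‖`, `Π = ∏ (y - ζ_l)`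
= `C b + Fit q(b, ·) - C 4` (monic of degree `2 ^ q` with these `2 ^ q` zeros).  `Π'(y) = ∏_(j<q) 2 (b + it b y j)` (chain rule, induction on `q`).  For `j < q` let `X_j(y) = b + it b y j`, monic of degree `2 ^ j`, with zeros `η` (a multiset):
`∏_l ‖X_j(ζ_l)‖ = ∏_l ∏_η ‖ζ_l - η‖ = ∏_η ‖Π(η)‖`, and `X_j(η) = 0` means `it b η j = -b`, so `Π(η) = b + it b (-b) (q-j) - 4` has norm `≤ 6`: the product is `≤ 6 ^ (2 ^ j)`.  So `‖det V‖ ^ 2 ≤ ∏_(j<q) 2 ^ (2 ^ q) 6 ^ (2 ^ j) ≤ (2 ^ q * 6) ^ (2 ^ q)`. -/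
def VdmStmt : Prop :=
  ∀ b ∈ PP, ∀ (q : ℕ) (ζ : Fin (2 ^ q) → ℂ), Function.Injective ζ → (∀ l, b + it b (ζ l) q = 4) →
    (Matrix.of fun e l : Fin (2 ^ q) => hv (2 ^ q) b (ζ l) e).det ≠ 0 ∧
    ‖(Matrix.of fun e l : Fin (2 ^ q) => hv (2 ^ q) b (ζ l) e).det‖ ^ 2 ≤
      ((6 : ℝ) * 2 ^ q) ^ (2 ^ q)

/-- **TBM** (medium, uses IVB LGB VDM).
Proof.  `φ` of IVB, `ζ_l = φ l 4`, `V` as in VDM, `T = (√(6 * 2 ^ q))⁻¹ • V`.  `‖det T‖ ^ 2 = ‖det V‖ ^ 2 / (6 * 2 ^ q) ^ (2 ^ q) ≤ 1`.  For every polynomial of degree `< 2 ^ q`, in particular `h_e(b, ·)`, `e < 2 ^ q`: `h_e(b, y) = ∑_l L_l(y) h_e(b, ζ_l)`,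
`L_l(y) = ∏_(l' ≠ l) (y - ζ_l') / (ζ_l - ζ_l')` (Lagrange), i.e. `V L(y) = hv b y`, so `T⁻¹ hv b y = √(6 * 2 ^ q) L(y)`; LGB. -/
def TbmStmt : Prop :=
  ∀ b ∈ PP, ∀ q : ℕ, ∃ T : Matrix (Fin (2 ^ q)) (Fin (2 ^ q)) ℂ, T.det ≠ 0 ∧ ‖T.det‖ ≤ 1 ∧
    ∀ y : ℂ, (b, y) ∈ KP →
      ∑ l, ‖(T⁻¹.mulVec (hv (2 ^ q) b y)) l‖ ^ 2 ≤ 18000 * (q + 1) * 2 ^ q

/-- **CPT** (medium, uses TBM CPK).  Finitely many matrices.
Proof.  Fix `b₀ ∈ PP` and its `T` (TBM).  The function `(b, y) ↦ ∑_l ‖(T⁻¹ hv b y)_l‖ ^ 2` is continuous on `KP` (compact, CPK), so the set of the `(b, y) ∈ KP` where it is `≥ 36000 (q+1) 2 ^ q` is compact, its projection to the `b`-line is compact and does not contain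
`b₀`.  So `b₀` has an open neighbourhood `O` with: `b ∈ O`, `(b, y) ∈ KP` imply the bound `≤ 36000 (q+1) 2 ^ q` for this `T`.  `PP` is compact: finitely many `O` cover it. -/
def CptStmt : Prop :=
  ∀ q : ℕ, ∃ (M : ℕ) (T : Fin M → Matrix (Fin (2 ^ q)) (Fin (2 ^ q)) ℂ),
    (∀ a, (T a).det ≠ 0 ∧ ‖(T a).det‖ ≤ 1) ∧
    ∀ b ∈ PP, ∃ a, ∀ y : ℂ, (b, y) ∈ KP →
      ∑ l, ‖((T a)⁻¹.mulVec (hv (2 ^ q) b y)) l‖ ^ 2 ≤ 36000 * (q + 1) * 2 ^ q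

/-- **SVD** (medium).
Proof.  `Tᴴ T` is Hermitian: there is a unitary `W` with `Wᴴ Tᴴ T W` diagonal (spectral theorem, `Matrix.IsHermitian.spectral_theorem`).  `T' = T W`: the columns of `T'` are orthogonal, `∏_x ∑_r ‖T' r x‖ ^ 2 = det (T'ᴴ T') = ‖det T‖ ^ 2`, and
`T'⁻¹ v = Wᴴ (T⁻¹ v)` has the same norm as `T⁻¹ v`. -/
def SvdStmt : Prop :=
  ∀ (N : ℕ) (T : Matrix (Fin N) (Fin N) ℂ), T.det ≠ 0 →
    ∃ T' : Matrix (Fin N) (Fin N) ℂ, T'.det ≠ 0 ∧ ∏ x, (∑ r, ‖T' r x‖ ^ 2) ≤ ‖T.det‖ ^ 2 ∧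
      ∀ v : Fin N → ℂ, ∑ l, ‖(T'⁻¹.mulVec v) l‖ ^ 2 = ∑ l, ‖(T⁻¹.mulVec v) l‖ ^ 2

/-- **FAM** (easy, uses CPT SVD). -/
def FamStmt : Prop :=
  ∀ q : ℕ, ∃ (M : ℕ) (T : Fin M → Matrix (Fin (2 ^ q)) (Fin (2 ^ q)) ℂ),
    (∀ a, (T a).det ≠ 0 ∧ ∏ x, (∑ r, ‖T a r x‖ ^ 2) ≤ 1) ∧
    ∀ b ∈ PP, ∃ a, ∀ y : ℂ, (b, y) ∈ KP →
      ∑ l, ‖((T a)⁻¹.mulVec (hv (2 ^ q) b y)) l‖ ^ 2 ≤ 36000 * (q + 1) * 2 ^ q

/-- **HDG** (easy-medium).  Digits.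
Proof.  `ev b y (h (2 ^ l * a)) = ev b (it b y l) (h a)` (induction on `l`, `h_two_mul`, `ev_comp_F`, `it_succ'`), and for `b' < 2 ^ l`, `h (2 ^ l * a + b') = h (2 ^ l * a) * h b'` (row HPR, or the same induction).  Induction on `m` (split off the last digit, `Fin.sum_univ_castSucc`). -/
def HdgStmt : Prop :=
  ∀ (b y : ℂ) (q₀ m : ℕ) (e : Fin m → Fin (2 ^ q₀)),
    ev b y (h (∑ j : Fin m, (e j : ℕ) * (2 ^ q₀) ^ (j : ℕ))) =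
      ∏ j : Fin m, ev b (it b y (q₀ * (j : ℕ))) (h (e j : ℕ))

/-- **HAD** (medium).  Hadamard's inequality (columns), complex.
Proof.  Gram - Schmidt, or: if `det M ≠ 0`, scale the columns to norm `1`; `G = Mᴴ M` is positive definite with trace `card ι` (all diagonal entries `1`), its eigenvalues are positive with sum `card ι`, so `det G ≤ 1` by the arithmetic - geometric mean inequality. -/
def HadStmt : Prop :=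
  ∀ (ι : Type) [Fintype ι] [DecidableEq ι] (M : Matrix ι ι ℂ),
    ‖M.det‖ ^ 2 ≤ ∏ j, ∑ i, ‖M i j‖ ^ 2

/-- **BLK** (easy, uses HAD).
Proof.  `Matrix.fromBlocks 1 Y (-B) 0` (blocks `κ × κ`, `κ × ι`, `ι × κ`, `ι × ι`) has determinant `det (B * Y)` (`Matrix.det_fromBlocks_one₁₁`); HAD. -/
def BlkStmt : Prop :=
  ∀ (ι κ : Type) [Fintype ι] [DecidableEq ι] [Fintype κ] [DecidableEq κ] (B : Matrix ι κ ℂ)
    (Y : Matrix κ ι ℂ),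
    ‖(B * Y).det‖ ^ 2 ≤ (∏ x, (1 + ∑ r, ‖B r x‖ ^ 2)) * ∏ p, ∑ x, ‖Y x p‖ ^ 2

/-- **LLN** (medium, real analysis).
Proof.  `t = 1/√m ∈ (0, 1]`.  For `u > 0`: `log (1 + u) ≤ u ^ t / t` (`1 + u ≤ (1 + u ^ t) ^ (1/t)`, `log (1 + v) ≤ v`; or compare derivatives).  So the sum is `≤ (1/t) ∑_l ∏_j c(l j) ^ t = (1/t) (∑_x c_x ^ t) ^ m` (`Finset.prod_univ_sum`).  `c_x ^ t = exp (t log c_x) ≤ 1 + t log c_x + t ^ 2 A_x`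
with `A_x = (log c_x) ^ 2 exp |log c_x|`.  `∑ log c_x = log ∏ c_x ≤ 0`, `A = ∑ A_x`: `∑_x c_x ^ t ≤ Q + t ^ 2 A ≤ Q (1 + A/m)` (`Q ≥ 1`; if `Q = 0` the left side is `0` because `m > 0`), and `(1 + A/m) ^ m ≤ exp A`.  So `C = exp A`. -/
def LlnStmt : Prop :=
  ∀ (Q : ℕ) (c : Fin Q → ℝ), (∀ x, 0 < c x) → ∏ x, c x ≤ 1 → ∃ C : ℝ, 0 ≤ C ∧ ∀ m : ℕ, 0 < m →
    ∑ l : Fin m → Fin Q, Real.log (1 + ∏ j, c (l j)) ≤ C * Real.sqrt m * (Q : ℝ) ^ m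

/-- **FCT** (STRONG assembly, uses HDG BLK).
Proof.  Point `p = (b, y)`, class `a = cl p`, `c_(p,j) = (T a)⁻¹ hv(b, it b y (q₀ j)) `, so `hv(b, it b y (q₀ j)) = T a c_(p,j)`.  For `e < 2 ^ (q₀ m)` let `dig e : Fin m → Fin (2 ^ q₀)` be the digits (`finFunctionFinEquiv`), `e = ∑_j (dig e j) (2 ^ q₀) ^ j`.  HDG:
`ev b y (h e) = ∏_j (T a c_(p,j))_(dig e j) = ∑_l ∏_j T a (dig e j) (l j) ∏_j c_(p,j) (l j)` (`Finset.prod_univ_sum`), `l : Fin m → Fin (2 ^ q₀)`.  `v_p(s) = (2b) ^ s` for `s < q`, `(2b/4) ^ s` for `s ≥ q`; `‖v_p(s)‖ ≤ 4 ^ q` (`‖b‖ ≤ 2`).  `κ = Fin M × Fin n × (Fin m → Fin (2 ^ q₀))`,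
`B (r, (a, s, l)) = 1_(s = (σ r).1) ∏_j T a (dig (σ r).2 j) (l j)`, `Y ((a, s, l), p) = 1_(a = cl p) v_p(s) ∏_j c_(p,j)(l j)`.  Then `(B * Y) r p` is the transposed matrix of the statement with the row `r` divided by `4 ^ (σ r).1` if `q ≤ (σ r).1`
(so the determinants differ by a factor of norm `≤ 4 ^ (n * card)`).  BLK: `∑_r ‖B r (a,s,l)‖ ^ 2 ≤ ∑_(e : Fin m → Fin (2^q₀)) ∏_j ‖T a (e j) (l j)‖ ^ 2 = ∏_j ∑_r ‖T a r (l j)‖ ^ 2` (for fixed `s` the `(σ r).2` are distinct), and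
`∑_x ‖Y x p‖ ^ 2 = ∑_s ‖v_p(s)‖ ^ 2 ∏_j ∑_l ‖c_(p,j) l‖ ^ 2 ≤ n 16 ^ q A ^ m`. -/
def FctStmt : Prop :=
  ∀ (q₀ m n q M : ℕ) (A : ℝ) (T : Fin M → Matrix (Fin (2 ^ q₀)) (Fin (2 ^ q₀)) ℂ)
    (ι : Type) [Fintype ι] [DecidableEq ι] (pt : ι → ℂ × ℂ) (cl : ι → Fin M) (σ : ι → ℕ × ℕ),
    (∀ a, (T a).det ≠ 0) → (∀ p, ‖(pt p).1‖ ≤ 2) →
    (∀ p j, ∑ l, ‖((T (cl p))⁻¹.mulVec
      (hv (2 ^ q₀) (pt p).1 (it (pt p).1 (pt p).2 j))) l‖ ^ 2 ≤ A) →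
    Function.Injective σ → (∀ x, (σ x).1 < n ∧ (σ x).2 < 2 ^ (q₀ * m)) →
    ‖(Matrix.of fun p y : ι => (2 * (pt p).1) ^ (σ y).1 *
      ev (pt p).1 (pt p).2 (h (σ y).2)).det‖ ^ 2 ≤
      4 ^ (2 * n * (univ.filter fun x => q ≤ (σ x).1).card) *
      (n * 16 ^ q * A ^ m) ^ (Fintype.card ι) *
      ∏ a, (∏ l : Fin m → Fin (2 ^ q₀), (1 + ∏ j, ∑ r, ‖T a r (l j)‖ ^ 2)) ^ n

/-- **ARC** (medium assembly, uses FAM CPK FCT LLN).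
Proof.  FAM for `q₀`: `M`, `T`; LLN with `Q = 2 ^ q₀`, `c x = ∑_r ‖T a r x‖ ^ 2` (`> 0` because `det ≠ 0`): `C_a`; `C₁ = ½ ∑_a C_a`.  Choose `cl p` for `b = (pt p).1`; `(b, it b y j) ∈ KP` by CPK, so FCT applies with `A = 36000 (q₀+1) 2 ^ q₀`.  Take logarithms (`Real.log` of the square is twice;
if the determinant is `0` the left side is `0` and the right side is `≥ 0`: if `ι` is empty all is `0 ≤`, otherwise `n ≥ 1`): `2 log ‖det‖ ≤ 2 n card log 4 + card ι (log n + 2 q log 4 + m log A) + n ∑_a C_a √m (2 ^ q₀) ^ m`. -/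
def ArcStmt : Prop :=
  ∀ q₀ : ℕ, 0 < q₀ → ∃ C₁ : ℝ, 0 ≤ C₁ ∧ ∀ (m n q : ℕ) (ι : Type) [Fintype ι] [DecidableEq ι]
    (pt : ι → ℂ × ℂ) (σ : ι → ℕ × ℕ), 0 < m → (∀ p, pt p ∈ KP) → Function.Injective σ →
    (∀ x, (σ x).1 < n ∧ (σ x).2 < 2 ^ (q₀ * m)) →
    Real.log ‖(Matrix.of fun p y : ι => (2 * (pt p).1) ^ (σ y).1 *
      ev (pt p).1 (pt p).2 (h (σ y).2)).det‖ ≤
      n * Real.log 4 * (univ.filter fun x => q ≤ (σ x).1).card +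
      Fintype.card ι * (Real.log n / 2 + q * Real.log 4 +
        m / 2 * Real.log (36000 * (q₀ + 1) * 2 ^ q₀)) +
      C₁ * n * Real.sqrt m * 2 ^ (q₀ * m)

end Pool.Agent.EDX
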