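import Pool.Agent.EDX.Stmts3

/-!
# Squad EDX, block F (numerics and assembly)
-/

set_option autoImplicit false

namespace Pool.Agent.EDX

open Polynomial Finset Pool.Agent.EDG Module

/-- **CSB** (medium assembly: CASE B, uses TAD ARC BN2).
Proof.  `C₁` of ARC.  TAD with `k = q₀ m`: `β`, `σ`.  ARC with `ι = Fin n × Fin D`, `pt x = (β x.2, it (β x.2) (-β x.2) x.1)` (in `KP` by BN2), `card ι = n D`; take the logarithm of the last inequality of TAD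
(`n (n-1) / 2` is an exact division). -/
def CsbStmt : Prop :=
  ∀ q₀ : ℕ, 0 < q₀ → ∃ C₁ : ℝ, 0 ≤ C₁ ∧ ∀ (n : ℕ) (g : ℤ[X]), Cyc n g → ∀ m q : ℕ, 0 < m → q ≤ n →
    g.natDegree ≤ 2 ^ (q₀ * m) →
    Real.log 2 * (g.natDegree * ((n : ℝ) * (n - 1) / 2)) ≤
      n * Real.log 4 * finrank ℚ (LQ n g q (q₀ * m)) +
      n * g.natDegree * (Real.log n / 2 + q * Real.log 4 +
        m / 2 * Real.log (36000 * (q₀ + 1) * 2 ^ q₀)) +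
      C₁ * n * Real.sqrt m * 2 ^ (q₀ * m)

/-- **NMA** (easy-medium, real numerics).
Proof.  `p.primeFactors.card ≤ Nat.log 2 p` (a product of distinct primes), and `log₂ p ≤ δ p + C_δ` for all `p ≥ 1`.  So `(1-δ) p ≤ m + C_δ`, and `n ≤ p`, `δ ≤ 1`, `m log 2 ≤ log K₃ + log D`. -/
def NmaStmt : Prop :=
  ∀ δ K₃ : ℝ, 0 < δ → δ ≤ 1 → 0 < K₃ → ∃ C : ℝ, ∀ n D m p : ℕ, 1 ≤ n → 1 ≤ D →
    (2 : ℝ) ^ m ≤ K₃ * D → n ≤ p → p ≤ m + p.primeFactors.card →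
    (1 - δ) * n * Real.log 2 ≤ Real.log D + C

/-- **NMB** (medium, real numerics).
Proof.  Divide by `n D`: `log 2 (n-1)/2 ≤ δ n log 4 + log n / 2 + (δ n + 1) log 4 + (m/2)(q₀ log 2 + log (36000 (q₀+1))) + C₁ √m 2 ^ (q₀ m) / D`.  `m q₀ log 2 ≤ log K₂ + log D` and `log (36000 (q₀+1)) ≤ δ q₀ log 2`, so the fourth term is `≤ ½ (1+δ)(log K₂ + log D)`; the last
is `≤ C₁ K₂ √m`, `m ≤ m q₀ ≤ (log K₂ + n log 2) / log 2`.  Multiply by `2`: `n log 2 (1 - 8 δ) ≤ (1+δ) log D + log n + 2 C₁ K₂ √(n + C') + C''`, and `log n + 2 C₁ K₂ √(n + C') ≤ δ n log 2 + C'''`.  So `(1 - 9δ) n log 2 ≤ (1+δ) log D + C`; divide by `1 + δ`: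
`(1 - 9δ) / (1+δ) ≥ 1 - 10 δ`. -/
def NmbStmt : Prop :=
  ∀ (δ C₁ K₂ : ℝ) (q₀ : ℕ), 0 < δ → δ ≤ 1 / 20 → 0 ≤ C₁ → 1 ≤ K₂ → 0 < q₀ →
    Real.log (36000 * (q₀ + 1)) ≤ δ * q₀ * Real.log 2 →
    ∃ C : ℝ, ∀ (n D m q : ℕ) (f : ℝ), 1 ≤ n → 1 ≤ D → 0 < m → D ≤ 2 ^ n → (q : ℝ) ≤ δ * n + 1 →
      (2 : ℝ) ^ (q₀ * m) ≤ K₂ * D → f ≤ δ * (n * D) →
      Real.log 2 * (D * ((n : ℝ) * (n - 1) / 2)) ≤ n * Real.log 4 * f +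
        n * D * (Real.log n / 2 + q * Real.log 4 +
          m / 2 * Real.log (36000 * (q₀ + 1) * 2 ^ q₀)) +
        C₁ * n * Real.sqrt m * 2 ^ (q₀ * m) →
      (1 - 10 * δ) * n * Real.log 2 ≤ Real.log D + C

/-- **PAR** (medium, choice of the parameters; natural numbers).
Proof.  `d = ⌈1/δ⌉`, `b = d + 2`, `κ = (2d)^(b+1)`, `J = 32 d ^ 3 κ`, `R = 32 d ^ 2 κ`.  For `n ≥ n₀`: `q = ⌈δ n⌉` (`0 < q ≤ n`, `q ≤ δ n + 1`, `n ≤ d q`), `r₀ = R D` (`32 d κ n D ≤ 32 d κ d q D = q r₀`), `k' = Nat.clog 2 (2 ^ J r₀)` (`2 ^ J r₀ ≤ 2 ^ k' < 2 * 2 ^ J r₀`),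
`m = ⌈log₂ ((b+2) 2 ^ k') / q₀⌉`, i.e. `(b+2) 2 ^ k' ≤ 2 ^ (q₀ m) ≤ 2 ^ q₀ * 2 * (b+2) 2 ^ k' ≤ K₂ D`, `K₂ = 2 ^ (q₀ + 2) (b+2) 2 ^ J R`; `D ≤ 2 ^ k' ≤ 2 ^ (q₀ m)`.  `k' ≤ 1 + J + log₂ R + n ≤ n + 2 δ n ≤ q b` for `n ≥ n₀` (`q b ≥ δ n (1/δ + 2)`).
`32 d ^ 2 κ n ≤ 32 d ^ 3 κ q < (J+1) q`.  `m' = Nat.clog 2 (16 d ^ 2 κ D)`: `16 d κ n D ≤ 16 d ^ 2 κ q D ≤ q 2 ^ m'`, `2 ^ m' ≤ K₃ D`, `K₃ = 32 d ^ 2 κ`. -/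
def ParStmt : Prop :=
  ∀ (δ : ℝ) (q₀ : ℕ), 0 < δ → δ ≤ 1 → 0 < q₀ →
    ∃ (b d J n₀ : ℕ) (K₂ K₃ : ℝ), 0 < b ∧ 0 < d ∧ 1 ≤ K₂ ∧ 0 < K₃ ∧ 1 / (d : ℝ) ≤ δ ∧
      ∀ n D : ℕ, n₀ ≤ n → 1 ≤ n → 1 ≤ D → D ≤ 2 ^ n →
        ∃ q k' m r₀ m' : ℕ, 0 < q ∧ q ≤ n ∧ (q : ℝ) ≤ δ * n + 1 ∧ 0 < m ∧ k' ≤ q * b ∧
          (b + 2) * 2 ^ k' ≤ 2 ^ (q₀ * m) ∧ D ≤ 2 ^ (q₀ * m) ∧
          (2 : ℝ) ^ (q₀ * m) ≤ K₂ * D ∧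
          32 * d * (2 * d) ^ (b + 1) * (n * D) ≤ q * r₀ ∧ 2 ^ J * r₀ ≤ 2 ^ k' ∧
          32 * d * d * (2 * d) ^ (b + 1) * n < (J + 1) * q ∧
          16 * d * (2 * d) ^ (b + 1) * (n * D) ≤ q * 2 ^ m' ∧ (2 : ℝ) ^ m' ≤ K₃ * D

/-- **QZ0** (easy, real numerics).  Proof.  `log (36000 (q+1)) / q → 0`. -/
def Qz0Stmt : Prop :=
  ∀ δ : ℝ, 0 < δ → ∃ q₀ : ℕ, 0 < q₀ ∧ Real.log (36000 * (q₀ + 1)) ≤ δ * q₀ * Real.log 2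

/-- **FIN** (medium assembly, uses CSA CSB NMA NMB PAR QZ0 and the statement `Pool.Agent.EDG.SetStmt`, in this order).
Proof.  If `ε ≥ 1`: `C = 1` (`c` is algebraic, so the degree is `≥ 1`; SET gives `g` of positive degree `≤ 2 deg`).  Otherwise `δ = ε / 20`; `q₀` of QZ0, `C₁` of CSB, PAR, NMA with `K₃`, NMB with `K₂`.  SET: `Cyc n g`, `D = natDegree g ≤ 2 natDegree (minpoly ℚ c)`.  If `n < n₀` use `C ≥ 2 ^ n₀`.  If `D > 2 ^ n` trivial.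
Otherwise take the parameters of PAR.  If `n D ≤ d dim LQ n g q (q₀ m)`: CSA (with `k = q₀ m`, `m = m'`) and NMA.  Otherwise `dim LQ < n D / d ≤ δ n D`: CSB and NMB with `f = dim LQ`.  In both cases
`(1 - 10 δ) n log 2 ≤ log D + C`, so `2 ^ ((1-ε) n) ≤ e ^ C D ≤ 2 e ^ C natDegree (minpoly ℚ c)`. -/
def FinStmt : Prop :=
  ∀ ε : ℝ, 0 < ε → ∃ C : ℝ, ∀ (n : ℕ) (c : ℂ), 0 < n →
    Function.minimalPeriod (fun z : ℂ => z ^ 2 + c) 0 = n →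
    (2 : ℝ) ^ ((1 - ε) * n) ≤ C * (minpoly ℚ c).natDegree

end Pool.Agent.EDX
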